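import Pool.Agent.W710.DP.Defs

/-! Statements of Part I (topology of the functionals of words) -/

set_option autoImplicit false

namespace Pool.Agent.W710.DP

open Finsupp

/-! #### chains -/

/-- REPL: replacement lemma -/
def S_repl : Prop := ∀ (Z : Type) (α β : List (Z → ZMod 2)) (z : List Z →₀ ZMod 2),
  α.length = β.length → (∀ t ∈ z.support, t.length = α.length + 1) →
  (∀ t ∈ (bd z).support, ∃ i < α.length, ∃ c : ZMod 2, ∀ p ∈ t,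
    α.getD i 0 p = c ∧ β.getD i 0 p = c) →
  pr (ev α) z = pr (ev β) z

/-- EZL: Leibniz rule for the product of two tuples -/
def S_ezl : Prop := ∀ (X Y : Type) (s : List X) (t : List Y), s ≠ [] → t ≠ [] →
  3 ≤ s.length + t.length →
  bd (ez s t) = ezc (bdL s) (single t 1) + ezc (single s 1) (bdL t)

/-- EZE: supports, and evaluation of products -/
def S_eze : Prop :=
  (∀ (X Y : Type) (s : List X) (t : List Y), ∀ u ∈ (ez s t).support,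
    u.length + 1 = s.length + t.length ∧ ∀ p ∈ u, p.1 ∈ s ∧ p.2 ∈ t) ∧
  ∀ (X Y : Type) (h : List (X → ZMod 2)) (k : List (Y → ZMod 2)) (s : List X) (t : List Y),
    s.length = h.length + 1 → t.length = k.length + 1 →
    pr (ev (h.map (fun f (p : X × Y) => f p.1) ++ k.map (fun f (p : X × Y) => f p.2))) (ez s t)
      = ev h s * ev k t

/-- PROD: products of chains -/
def S_prod : Prop := ∀ (X Y : Type) (h : List (X → ZMod 2)) (k : List (Y → ZMod 2))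
    (z : List X →₀ ZMod 2) (y : List Y →₀ ZMod 2), 1 ≤ h.length + k.length →
    (∀ s ∈ z.support, s.length = h.length + 1) → (∀ t ∈ y.support, t.length = k.length + 1) →
    (∀ u ∈ (ezc z y).support, u.length = h.length + k.length + 1 ∧
      ∃ s ∈ z.support, ∃ t ∈ y.support, ∀ p ∈ u, p.1 ∈ s ∧ p.2 ∈ t) ∧
    (∀ u ∈ (bd (ezc z y)).support,
      (∃ s ∈ (bd z).support, ∃ t ∈ y.support, ∀ p ∈ u, p.1 ∈ s ∧ p.2 ∈ t) ∨
      (∃ s ∈ z.support, ∃ t ∈ (bd y).support, ∀ p ∈ u, p.1 ∈ s ∧ p.2 ∈ t)) ∧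
    pr (ev (h.map (fun f (p : X × Y) => f p.1) ++ k.map (fun f (p : X × Y) => f p.2))) (ezc z y)
      = pr (ev h) z * pr (ev k) y

/-- PATH: the interval `[-R, R]` as a chain -/
def S_path : Prop := ∀ R > (0 : ℝ), ∀ ε > (0 : ℝ), ∃ z : List ℝ →₀ ZMod 2,
  (∀ t ∈ z.support, t.length = 2 ∧ (∀ p ∈ t, ∀ q ∈ t, |p - q| ≤ ε) ∧ ∀ p ∈ t, |p| ≤ R) ∧
  (∀ t ∈ (bd z).support, t = [R] ∨ t = [-R]) ∧
  pr (ev [fun r : ℝ => if 0 < r then 1 else 0]) z = 1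

/-- DUAL: linear duality -/
def S_dual : Prop := ∀ (Z : Type) (hs : List (Z → ZMod 2)) (P : List Z → Prop) (Q : Z → Prop),
  (¬ ∃ z, Cyc hs P Q z) →
  ∃ η : List Z → ZMod 2, (∀ t, (∀ p ∈ t, Q p) → η t = 0) ∧
    ∀ t, t.length = hs.length + 1 → P t → ev hs t = cob η t

/-- value of a function at the first point of a tuple -/
def u0 {Z : Type} (u : Z → ZMod 2) : List Z → ZMod 2
  | [] => 0
  | x :: _ => u x

/-- TRI: the cochain identity behind SUP; `n = h.length`, `k.length` arbitrary -/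
def S_tri : Prop := ∀ (Z : Type) (h k : List (Z → ZMod 2)) (m g : Z → ZMod 2)
    (η θ : List Z → ZMod 2) (z : List Z →₀ ZMod 2), h ≠ [] → k ≠ [] →
    (∀ t ∈ z.support, t.length = h.length + k.length + 2) →
    pr (ev (h ++ m :: k)) z =
      pr (fun t => (ev h (t.take (h.length + 1)) + cob η (t.take (h.length + 1))) *
        ev [g] (t.drop h.length) *
        (ev k (t.drop (h.length + 1)) + cob θ (t.drop (h.length + 1)))) z +
      pr (fun t => ev h (t.take (h.length + 1)) * u0 (fun p => m p + g p) (t.drop h.length) *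
          ev k (t.drop h.length) +
        ev h (t.take (h.length + 1)) * ev [g] (t.drop h.length) * θ (t.drop (h.length + 1)) +
        η (t.take h.length) * ev [g] (t.drop (h.length - 1)) *
          (ev k (t.drop h.length) + cob θ (t.drop h.length))) (bd z)

/-! #### the functional -/

/-- FAR: very negative values force a large `|x_{i+1} - x_i|` -/
def S_far : Prop := ∀ (b T e : ℝ) (w : List Letter), Par b T e → GoodW T e w → ∀ Y : ℝ,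
  ∃ M : ℝ, ∀ ζ, Om T w.length ζ → Sw b w ζ ≤ -M → ∃ i < w.length, Y ≤ |ζ.1 (i + 1) - ζ.1 i|

/-- LOC: local Lipschitz estimate -/
def S_loc : Prop := ∀ (b T e : ℝ) (w : List Letter), Par b T e → GoodW T e w → ∀ Y : ℝ, 0 ≤ Y →
  ∃ L : ℝ, 0 ≤ L ∧ ∀ (ζ η : Cfg) (ε : ℝ), 0 ≤ ε → Om T w.length ζ → Om T w.length η →
    (∀ i < w.length, |ζ.1 (i + 1) - ζ.1 i| ≤ Y) → (∀ i < w.length, |η.1 (i + 1) - η.1 i| ≤ Y) →
    Close w.length ε ζ η → |Sw b w ζ - Sw b w η| ≤ L * ε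

/-- DESC: second order Taylor estimate -/
def S_desc : Prop := ∀ (b T e : ℝ) (w : List Letter), Par b T e → GoodW T e w →
  ∃ C : ℝ, 0 < C ∧ ∀ ζ η : Cfg, Sw b w η ≤ Sw b w ζ +
    ∑ i ∈ Finset.range (w.length + 1), gradX b w ζ i * (η.1 i - ζ.1 i) +
    ∑ i ∈ Finset.range w.length, gradS w ζ i * (η.2 i - ζ.2 i) +
    C * (∑ i ∈ Finset.range (w.length + 1), (η.1 i - ζ.1 i) ^ 2 +
      ∑ i ∈ Finset.range w.length, (η.2 i - ζ.2 i) ^ 2)

/-- GLIP: the gradient is Lipschitz, and bounded up to the linear term -/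
def S_glip : Prop := ∀ (b T e : ℝ) (w : List Letter), Par b T e → GoodW T e w →
  (∃ L : ℝ, 0 ≤ L ∧ ∀ (ζ η : Cfg) (ε : ℝ), 0 ≤ ε → Close w.length ε ζ η →
    (∀ i ≤ w.length, |gradX b w ζ i - gradX b w η i| ≤ L * ε) ∧
    ∀ i < w.length, |gradS w ζ i - gradS w η i| ≤ L * ε) ∧
  ∃ B : ℝ, 0 ≤ B ∧ ∀ ζ, Om T w.length ζ → (∀ i ≤ w.length, |gradX b w ζ i| ≤ B) ∧
    ∀ i < w.length, |gradS w ζ i - (ζ.1 (i + 1) - ζ.1 i)| ≤ B

/-- properties of one descent step -/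
def StepOK (τ b T : ℝ) (w : List Letter) : Prop :=
  0 < τ ∧ (∀ ζ, Om T w.length (Dst τ b T w ζ)) ∧
  (∀ ζ, Om T w.length ζ → ∀ i ≤ w.length, |(Dst τ b T w ζ).1 i - ζ.1 i| ≤ 1 / 4) ∧
  (∀ ζ, Om T w.length ζ → ∀ i ≤ w.length,
    Sw b w (Dst τ b T w ζ) + ((Dst τ b T w ζ).1 i - ζ.1 i) ^ 2 / (2 * τ) ≤ Sw b w ζ) ∧
  (∀ ζ, Om T w.length ζ → ∀ i < w.length,
    Sw b w (Dst τ b T w ζ) + ((Dst τ b T w ζ).2 i - ζ.2 i) ^ 2 / (2 * τ) ≤ Sw b w ζ) ∧
  ∃ L : ℝ, 1 ≤ L ∧ ∀ (ζ η : Cfg) (ε : ℝ), 0 ≤ ε → Close w.length ε ζ η →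
    Close w.length (L * ε) (Dst τ b T w ζ) (Dst τ b T w η)

/-- STEP -/
def S_step : Prop := ∀ (b T e : ℝ) (w : List Letter), Par b T e → GoodW T e w →
  ∃ τ : ℝ, StepOK τ b T w

/-- COL: almost critical configurations stay away from the ends of `[0,T]` -/
def S_col : Prop := ∀ (b T e : ℝ) (w : List Letter), Par b T e → GoodW T e w →
  ∀ (ζ : Cfg) (κ : ℝ), 0 ≤ κ → w.length * κ ≤ e / 2 → (∀ i < w.length, |gradX b w ζ i| ≤ κ) →
  ∀ i < w.length, e / 2 ≤ ζ.2 i ∧ ζ.2 i ≤ T - e / 2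

/-- no critical value in `[a0, a1]` -/
def NoCrit (b T : ℝ) (w : List Letter) (a0 a1 : ℝ) : Prop :=
  ∀ ζ, Om T w.length ζ → Crit b w ζ → ¬ (a0 ≤ Sw b w ζ ∧ Sw b w ζ ≤ a1)

/-- PS: compactness -/
def S_ps : Prop := ∀ (b T e : ℝ) (w : List Letter), Par b T e → GoodW T e w →
  ∀ a0 a1 : ℝ, NoCrit b T w a0 a1 → ∃ κ > 0, ∀ ζ, Om T w.length ζ → a0 ≤ Sw b w ζ →
    Sw b w ζ ≤ a1 → (∃ i ≤ w.length, κ < |gradX b w ζ i|) ∨ ∃ i < w.length, κ < |gradS w ζ i|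

/-- GAIN: definite decrease away from critical values -/
def S_gain : Prop := ∀ (b T e : ℝ) (w : List Letter), Par b T e → GoodW T e w →
  ∀ τ : ℝ, StepOK τ b T w → ∀ a0 a1 : ℝ, NoCrit b T w a0 a1 → ∃ κ > 0, ∀ ζ,
    Om T w.length ζ → a0 ≤ Sw b w ζ → Sw b w ζ ≤ a1 → Sw b w (Dst τ b T w ζ) ≤ Sw b w ζ - κ

/-- DROP: one step brings configurations with a large `|x_{i+1} - x_i|` far down -/
def S_drop : Prop := ∀ (b T e : ℝ) (w : List Letter), Par b T e → GoodW T e w →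
  ∀ τ : ℝ, StepOK τ b T w → ∀ M : ℝ, ∃ Y : ℝ, 0 ≤ Y ∧ ∀ ζ, Om T w.length ζ →
    (∃ i < w.length, Y ≤ |ζ.1 (i + 1) - ζ.1 i|) → Sw b w (Dst τ b T w ζ) ≤ -M

/-- STAIR: the staircase translation -/
def S_stair : Prop := ∀ N : ℕ, ∃ v : ℝ → ℕ → ℝ,
  (∀ r r' j, |v r j - v r' j| ≤ |r - r'|) ∧ (∀ r, ∀ j < N, |v r (j + 1) - v r j| ≤ 1) ∧
  (∀ r, |v r 0 - r / (N + 1)| ≤ 1) ∧
  ∀ (b T e : ℝ) (w : List Letter), Par b T e → GoodW T e w → w.length = N →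
    ∀ (r : ℝ) (ζ : Cfg), Om T N ζ → Sw b w (fun i => ζ.1 i + v r i, ζ.2) ≤ Sw b w ζ + b + 1

/-! #### nonvanishing classes -/

/-- LOW -/
def S_low : Prop := ∀ (b T e : ℝ) (w : List Letter), Par b T e → GoodW T e w →
  ∃ a0 : ℝ, ∀ a ≤ a0, ¬ NN b T w a

/-- BASE -/
def S_base : Prop := ∀ (b T e : ℝ) (w : List Letter), Par b T e → GoodW T e w →
  NN b T w ((w.length : ℝ) / 4)

/-- PUSH -/
def S_push : Prop := ∀ (b T e : ℝ) (w : List Letter), Par b T e → GoodW T e w →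
  ∀ a0 a1 : ℝ, NoCrit b T w a0 a1 → NN b T w a1 → NN b T w a0

/-- BDD: bounded cycles -/
def S_bdd : Prop := ∀ (b T e : ℝ) (w : List Letter), Par b T e → GoodW T e w →
  ∀ a : ℝ, NN b T w a → NNB b T w a

/-- SUB -/
def S_sub : Prop := ∀ (b T e : ℝ) (v w : List Letter), Par b T e → GoodW T e v → GoodW T e w →
  ∀ a c : ℝ, NN b T v a → NN b T w c → NN b T (v ++ idL :: w) (a + c + b + 1)

/-- SUP -/
def S_sup : Prop := ∀ (b T e : ℝ) (v w : List Letter), Par b T e → GoodW T e v → GoodW T e w →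
  v ≠ [] → w ≠ [] → ∀ a a1 a2 : ℝ, a < a1 + a2 → NN b T (v ++ idL :: w) a →
  NN b T v a1 ∨ NN b T w a2

end Pool.Agent.W710.DP
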