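import Pool.Agent.W710.DP.Defs

/-! Statements of Part II (area preserving diffeomorphisms, realisation by words) -/

set_option autoImplicit false

namespace Pool.Agent.W710.DP

open MeasureTheory

/-- smooth -/
abbrev Sm (f : ℝ × ℝ → ℝ) : Prop := ContDiff ℝ ((⊤ : ℕ∞) : WithTop ℕ∞) f

/-! #### generating functions in the plane -/

/-- BIJ: small perturbations of the identity are diffeomorphisms -/
def S_bij : Prop := ∀ h : ℝ × ℝ → ℝ × ℝ, ContDiff ℝ ((⊤ : ℕ∞) : WithTop ℕ∞) h →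
  (∀ p q, ‖h p - h q‖ ≤ 1 / 2 * ‖p - q‖) →
  ∃ F : (ℝ × ℝ) ≃ (ℝ × ℝ), (∀ p, F p = p + h p) ∧
    ContDiff ℝ ((⊤ : ℕ∞) : WithTop ℕ∞) (⇑F.symm)

/-- GF: a compactly supported function with small second derivatives generates a compactly
supported area preserving diffeomorphism -/
def S_gf : Prop := ∀ g : ℝ × ℝ → ℝ, Sm g → HasCompactSupport g →
  (∀ p, ‖fderiv ℝ (px g) p‖ ≤ 1 / 2 ∧ ‖fderiv ℝ (ps g) p‖ ≤ 1 / 2) →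
  ∃ f : Equiv.Perm ℂ, AP f ∧ CS f ∧ ∀ x y : ℝ,
    f (⟨x, y + px g (x, y)⟩ : ℂ) = (⟨x + ps g (x, y), y⟩ : ℂ)

/-- CORE: the change of variables to generating functions -/
def S_core : Prop := ∀ (u v : ℝ × ℝ → ℝ) (δ : ℝ), δ ≤ 1 / 4 → SmallC1 δ u → SmallC1 δ v →
  ∃ σ : ℝ × ℝ → ℝ, Sm σ ∧ (∀ x s, σ (x, s + v (x, s)) = s) ∧
    (∀ x S, σ (x, S) + v (x, σ (x, S)) = S) ∧
    SmallC1 (4 * δ) (fun p => σ p - p.2) ∧ SmallC1 (4 * δ) (fun p => u (p.1, σ p)) ∧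
    ∀ x S, Jac1 u v (x, σ (x, S)) →
      ps (fun p => σ p - p.2) (x, S) = px (fun p => u (p.1, σ p)) (x, S)

/-- POT: the primitive of a closed form on a product of intervals -/
def S_pot : Prop := ∀ (p q : ℝ × ℝ → ℝ) (I J : Set ℝ), Sm p → Sm q → IsOpen I → IsOpen J →
  I.OrdConnected → J.OrdConnected → (0 : ℝ) ∈ I → (0 : ℝ) ∈ J →
  (∀ x ∈ I, ∀ y ∈ J, ps p (x, y) = px q (x, y)) →
  ∀ x ∈ I, ∀ y ∈ J, HasFDerivAt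
    (fun z : ℝ × ℝ => (∫ t in (0 : ℝ)..z.1, p (t, 0)) + ∫ t in (0 : ℝ)..z.2, q (z.1, t))
    (p (x, y) • ContinuousLinearMap.fst ℝ ℝ ℝ + q (x, y) • ContinuousLinearMap.snd ℝ ℝ ℝ) (x, y)

/-- `n` agrees with `f` near `0` -/
def Germ (n : Equiv.Perm ℂ) (f : ℂ → ℂ) : Prop :=
  AP n ∧ CS n ∧ ∃ r : ℝ, 0 < r ∧ ∀ z : ℂ, ‖z‖ < r → n z = f z

/-- TRANS: translations -/
def S_trans : Prop := ∀ p : ℂ, ∃ n, Germ n (fun z => z + p)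

/-- SHEAR: shears -/
def S_shear : Prop := ∀ t : ℝ, (∃ n, Germ n (fun z => (⟨z.re + t * z.im, z.im⟩ : ℂ))) ∧
  ∃ n, Germ n (fun z => (⟨z.re, z.im + t * z.re⟩ : ℂ))

/-- LIN: linear maps -/
def S_lin : Prop := ∀ A : ℂ →ₗ[ℝ] ℂ, LinearMap.det A = 1 → ∃ n, Germ n (fun z => A z)

/-- TAN: maps tangent to the identity at `0` -/
def S_tan : Prop := ∀ a : Equiv.Perm ℂ, AP a → a 0 = 0 →
  fderiv ℝ (⇑a) 0 = ContinuousLinearMap.id ℝ ℂ → ∃ n, Germ n a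

/-- GERM -/
def S_germ : Prop := ∀ a : Equiv.Perm ℂ, AP a → ∃ n, Germ n a

/-- TWIST -/
def S_twist : Prop := (∃ f : Equiv.Perm ℂ, AP f ∧ ∀ z, f z = twist z) ∧
  ∀ x t : ℝ, 0 ≤ t → twist (E x t) = E (x + 2 * t) t

/-- commutator of a pair -/
def cmm (p : Equiv.Perm ℂ × Equiv.Perm ℂ) : Equiv.Perm ℂ := p.1 * p.2 * p.1⁻¹ * p.2⁻¹

/-- RED: reduction to maps which are the identity near `0` -/
def S_red : Prop := ∀ f : Equiv.Perm ℂ, AP f →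
  f ∈ Subgroup.closure {c : Equiv.Perm ℂ | ∃ a b : Equiv.Perm ℂ, AP a ∧ AP b ∧
    c = a * b * a⁻¹ * b⁻¹} →
  ∃ L : List (Equiv.Perm ℂ × Equiv.Perm ℂ),
    (∀ p ∈ L, AP p.1 ∧ Id0 p.1 ∧ AP p.2 ∧ Id0 p.2) ∧
    ∃ r : ℝ, ∀ z : ℂ, r < ‖z‖ → (L.map cmm).prod z = f z

/-! #### realisation -/

/-- closeness to the identity on the disc of area `ρ` -/
def CloseId (ρ δ : ℝ) (φ : ℂ → ℂ) : Prop :=
  ∀ z, ar z ≤ ρ → ‖φ z - z‖ ≤ δ ∧ ‖fderiv ℝ φ z - ContinuousLinearMap.id ℝ ℂ‖ ≤ δ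

/-- STEPS: decomposition into small steps by rescaling -/
def S_steps : Prop := ∀ a : Equiv.Perm ℂ, AP a → Id0 a → ∀ R : ℝ, 0 < R → ∃ r0 > 0, ∃ ρ > 0,
  ∀ δ > 0, ∃ L : List (Equiv.Perm ℂ), L ≠ [] ∧
    (∀ φ ∈ L, AP φ ∧ (∀ z : ℂ, ‖z‖ < r0 → φ z = z) ∧ CloseId (ρ + 4) δ φ) ∧
    ∀ z, ar z < R → Stay ρ L z ∧ compL L z = a z

/-- LIFT: the lift of a small step to the strip -/
def S_lift : Prop := ∀ r0 > 0, ∀ ρ > 0, ∀ δ' > 0, ∃ δ > 0, ∀ φ : Equiv.Perm ℂ, AP φ →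
  (∀ z : ℂ, ‖z‖ < r0 → φ z = z) → CloseId (ρ + 4) δ φ →
  ∃ u v : ℝ × ℝ → ℝ, Strip (Real.pi * r0 ^ 2 / 2) ρ δ' u v ∧
    ∀ x s, 0 < s → s < ρ + 3 → 0 < s + v (x, s) ∧
      E (x + u (x, s)) (s + v (x, s)) = φ (E x s)

/-- GEN: the letter of a small step -/
def S_gen : Prop := ∀ s0 > 0, ∀ ρ > 0, ∀ T e : ℝ, 0 < e → e ≤ s0 / 2 → e ≤ 1 → ρ + 3 ≤ T →
  ∃ δ > 0, ∀ u v : ℝ × ℝ → ℝ, Strip s0 ρ δ u v → ∃ l : Letter, Good T e l ∧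
    ∀ x s, s < ρ → v (x, s) + l.gx x (s + v (x, s)) = 0 ∧ u (x, s) = l.gs x (s + v (x, s))

/-- LETTER -/
def S_letter : Prop := ∀ r0 > 0, ∀ ρ > 0, ∀ T e : ℝ, 0 < e → e ≤ Real.pi * r0 ^ 2 / 4 → e ≤ 1 →
  ρ + 3 ≤ T → ∃ δ > 0, ∀ φ : Equiv.Perm ℂ, AP φ → (∀ z : ℂ, ‖z‖ < r0 → φ z = z) →
  CloseId (ρ + 4) δ φ → ∃ l : Letter, Good T e l ∧ Realises [l] φ (Dc ρ)

/-- COMP: composition of realisations -/
def S_comp : Prop := ∀ (v w : List Letter) (f g : ℂ → ℂ) (D D' : Set ℂ),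
  Realises v f D → Realises w g D' → Realises (v ++ w) (fun z => g (f z)) (D ∩ f ⁻¹' D')

/-- REAL -/
def S_real : Prop := ∀ a : Equiv.Perm ℂ, AP a → Id0 a → ∀ R : ℝ, 0 < R →
  ∃ T0 : ℝ, ∃ e0 > 0, ∀ T ≥ T0, ∀ e, 0 < e → e ≤ e0 → ∃ w : List Letter, w ≠ [] ∧
    GoodW T e w ∧ Realises w a (Dc R)

/-! #### evaluation -/

/-- ORB: critical configurations are orbits, orbits are unique -/
def S_orb : Prop := (∀ (b : ℝ) (w : List Letter) (ζ : Cfg), Crit b w ζ →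
    Orb w (ζ.1 0) b (ζ.1 w.length) b (Sw b w ζ + b * (ζ.1 w.length - ζ.1 0))) ∧
  ∀ (T e : ℝ) (w : List Letter), GoodW T e w → ∀ x s X S A X' S' A' : ℝ,
    Orb w x s X S A → Orb w x s X' S' A' → X = X' ∧ S = S' ∧ A = A'

/-- ANG: derivative of the angle along a curve -/
def S_ang : Prop := ∀ (X S : ℝ → ℝ) (γ : ℝ → ℂ) (t X₁ S₁ : ℝ) (γ₁ : ℂ),
  HasDerivAt X X₁ t → HasDerivAt S S₁ t → HasDerivAt γ γ₁ t → 0 < S t →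
  (∀ᶠ τ in nhds t, E (X τ) (S τ) = γ τ) →
  S t = ar (γ t) ∧ S t * X₁ = ((starRingEnd ℂ) (γ t) * γ₁).im / 2

/-- EVID: words realising the identity have critical value zero -/
def S_evid : Prop := ∀ (b T e R : ℝ) (w : List Letter), Par b T e → GoodW T e w → b < R →
  Realises w (fun z => z) (Dc R) → ∀ ζ, Crit b w ζ → Sw b w ζ = 0

/-- EVTW: words realising a map which is the twist outside a disc -/
def S_evtw : Prop := ∀ g : Equiv.Perm ℂ, AP g → Id0 g → ∀ s1 : ℝ, 0 < s1 →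
  (∀ z, s1 ≤ ar z → g z = twist z) →
  ∃ C : ℝ, ∀ (b T e R : ℝ) (w : List Letter), Par b T e → GoodW T e w → s1 < b → b < R →
    Realises w g (Dc R) → ∀ ζ, Crit b w ζ → Sw b w ζ ≤ -b ^ 2 + C * (b + 1)

/-- the statement to be refuted (verbatim from S14156) -/
def HypPerfect : Prop := ∀ f : Equiv.Perm (Fin 2 → ℝ),
      (ContDiff ℝ ((⊤ : ℕ∞) : WithTop ℕ∞) (⇑f) ∧
        ContDiff ℝ ((⊤ : ℕ∞) : WithTop ℕ∞) (⇑(Equiv.symm f)) ∧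
        ∀ x : Fin 2 → ℝ,
          LinearMap.det ((fderiv ℝ (⇑f) x : (Fin 2 → ℝ) →L[ℝ] (Fin 2 → ℝ)) :
            (Fin 2 → ℝ) →ₗ[ℝ] (Fin 2 → ℝ)) = 1) →
      f ∈ Subgroup.closure
        {c : Equiv.Perm (Fin 2 → ℝ) | ∃ a b : Equiv.Perm (Fin 2 → ℝ),
          (ContDiff ℝ ((⊤ : ℕ∞) : WithTop ℕ∞) (⇑a) ∧
            ContDiff ℝ ((⊤ : ℕ∞) : WithTop ℕ∞) (⇑(Equiv.symm a)) ∧
            ∀ x : Fin 2 → ℝ,
              LinearMap.det ((fderiv ℝ (⇑a) x : (Fin 2 → ℝ) →L[ℝ] (Fin 2 → ℝ)) :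
                (Fin 2 → ℝ) →ₗ[ℝ] (Fin 2 → ℝ)) = 1) ∧
          (ContDiff ℝ ((⊤ : ℕ∞) : WithTop ℕ∞) (⇑b) ∧
            ContDiff ℝ ((⊤ : ℕ∞) : WithTop ℕ∞) (⇑(Equiv.symm b)) ∧
            ∀ x : Fin 2 → ℝ,
              LinearMap.det ((fderiv ℝ (⇑b) x : (Fin 2 → ℝ) →L[ℝ] (Fin 2 → ℝ)) :
                (Fin 2 → ℝ) →ₗ[ℝ] (Fin 2 → ℝ)) = 1) ∧
          c = a * b * a⁻¹ * b⁻¹}

/-- XFER: transfer from `Fin 2 → ℝ` to `ℂ` -/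
def S_xfer : Prop := HypPerfect → ∀ f : Equiv.Perm ℂ, AP f →
  f ∈ Subgroup.closure {c : Equiv.Perm ℂ | ∃ a b : Equiv.Perm ℂ, AP a ∧ AP b ∧
    c = a * b * a⁻¹ * b⁻¹}

/-- RAD: finitely many homeomorphisms keep a disc in a disc -/
def S_rad : Prop := ∀ L : List (Equiv.Perm ℂ), (∀ f ∈ L, AP f) → ∀ R : ℝ, ∃ ρ : ℝ, 0 < ρ ∧
  ∀ ρ' ≥ ρ, ∀ z, ar z < R → Stay ρ' L z

end Pool.Agent.W710.DP
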