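import Pool.Agent.W710.DP.Base
import Pool.Agent.W710.DP.Stm2

set_option autoImplicit false

namespace Pool.Agent.W710.DP

lemma ar_lt_iff_compact (R : ℝ) : ∃ K : Set ℂ, IsCompact K ∧ ∀ z, ar z < R → z ∈ K := by
  refine ⟨Metric.closedBall 0 (Real.sqrt (|R| / Real.pi)), isCompact_closedBall _ _, ?_⟩
  intro z hz
  rw [mem_closedBall_zero_iff]
  refine Real.le_sqrt_of_sq_le ?_
  rw [le_div_iff₀ Real.pi_pos]
  unfold ar at hz
  have := le_abs_self R
  linarith [mul_comm Real.pi (‖z‖ ^ 2)]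

lemma ar_image_bdd (f : ℂ → ℂ) (hf : Continuous f) (R : ℝ) :
    ∃ R' : ℝ, ∀ z, ar z < R → ar (f z) < R' := by
  obtain ⟨K, hK, h⟩ := ar_lt_iff_compact R
  have hc : Continuous fun z => ar (f z) := by
    unfold ar
    exact continuous_const.mul ((hf.norm).pow 2)
  obtain ⟨B, hB⟩ := (hK.image hc).bddAbove
  exact ⟨B + 1, fun z hz => by
    have := hB (Set.mem_image_of_mem _ (h z hz))
    linarith⟩

theorem t_rad : S_rad := by
  intro L hL
  induction L with
  | nil => exact fun R => ⟨1, one_pos, fun _ _ _ _ => trivial⟩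
  | cons f L ih =>
      intro R
      obtain ⟨R', hR'⟩ := ar_image_bdd f (hL f (by simp)).continuous R
      obtain ⟨ρ, h1, h2⟩ := ih (fun g hg => hL g (List.mem_cons_of_mem _ hg)) R'
      refine ⟨max ρ R, lt_max_of_lt_left h1, fun ρ' hρ' z hz => ⟨?_, ?_⟩⟩
      · exact lt_of_lt_of_le hz ((le_max_right _ _).trans hρ')
      · exact h2 ρ' ((le_max_left _ _).trans hρ') _ (hR' z hz)

end Pool.Agent.W710.DP
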