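import Pool.Agent.W710.DP.Final
import Pool.Agent.W710.DP.Rad
import Pool.Agent.W153.DP.Repl
import Pool.Agent.W885.DP.Ezl
import Pool.Agent.W304.DP.Eze
import Pool.Agent.W304.DP.Prod
import Pool.Agent.W327.DP.Path
import Pool.Agent.W153.DP.Dual
import Pool.Agent.W304.DP.Tri
import Pool.Agent.W395.DP.Far
import Pool.Agent.W636.DP.Loc
import Pool.Agent.W407.DP.Desc
import Pool.Agent.W409.DP.Glip
import Pool.Agent.W395.DP.Step
import Pool.Agent.W705.DP.Col
import Pool.Agent.W933.DP.Ps
import Pool.Agent.W616.DP.Drop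
import Pool.Agent.W923.DP.Stair
import Pool.Agent.W395.DP.Low
import Pool.Agent.W154.DP.BaseCls
import Pool.Agent.W197.DP.Push
import Pool.Agent.W918.DP.Bdd
import Pool.Agent.W925.DP.Bij
import Pool.Agent.W645.DP.Gf
import Pool.Agent.W539.DP.Core
import Pool.Agent.W699.DP.Pot
import Pool.Agent.W597.DP.TRANS
import Pool.Agent.W699.DP.Shear
import Pool.Agent.W645.DP.Lin
import Pool.Agent.W817.DP.Germ
import Pool.Agent.W409.DP.Twist
import Pool.Agent.W925.DP.Xfer
import Pool.Agent.W817.DP.Red
import Pool.Agent.W710.DP.GenC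
import Pool.Agent.W539.DP.Letter
import Pool.Agent.W925.DP.Comp
import Pool.Agent.W481.DP.Real
import Pool.Agent.W293.DP.Orb
import Pool.Agent.W293.DP.Ang
import Pool.Agent.W293.DP.Evid

set_option autoImplicit false

namespace Pool.Agent.W710.DP

theorem a_far : S_far := W395.DP.t_far
theorem a_prod : S_prod := W304.DP.t_prod W885.DP.t_ezl W304.DP.t_eze
theorem a_step : S_step := W395.DP.t_step W407.DP.t_desc W409.DP.t_glip
theorem a_gain : S_gain := W395.DP.t_gain W705.DP.t_col W933.DP.t_ps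
theorem a_drop : S_drop := W616.DP.t_drop W409.DP.t_glip
theorem a_low : S_low := W395.DP.t_low a_far
theorem a_base : S_base := W154.DP.t_base a_prod W327.DP.t_path
theorem a_push : S_push := W197.DP.t_push a_step a_gain a_far W153.DP.t_repl
theorem a_bdd : S_bdd := W918.DP.t_bdd a_step a_drop a_far W153.DP.t_repl
theorem a_gf : S_gf := W645.DP.Gf.t_gf W925.DP.t_bij
theorem a_core : S_core := W539.DP.t_core W925.DP.t_bij
theorem a_trans : S_trans := W597.DP.t_trans a_gf
theorem a_shear : S_shear := W699.DP.Sh.t_shear a_gf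
theorem a_lin : S_lin := W645.DP.Lin.t_lin a_shear
theorem a_gen : S_gen := GenC.t_gen a_core W699.DP.t_pot
theorem a_evid : S_evid := W293.DP.t_evid W293.DP.t_orb W293.DP.t_ang

/-- what remains -/
theorem asm (hsub : S_prod → S_path → S_stair → S_repl → S_far → S_sub)
    (hsup : S_bdd → S_dual → S_tri → S_far → S_loc → S_sup)
    (htan : S_core → S_pot → S_gf → S_tan) (hsteps : S_steps) (hlift : S_lift)
    (hevtw : S_evtw) : ¬ HypPerfect :=
  final a_low a_base a_push
    (hsub a_prod W327.DP.t_path W923.DP.t_stair W153.DP.t_repl a_far)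
    (hsup a_bdd W153.DP.t_dual W304.DP.t_tri a_far W636.DP.t_loc)
    W409.DP.t_twist W925.DP.t_xfer
    (W817.DP.t_red (W817.DP.t_germ a_trans a_lin (htan a_core W699.DP.t_pot a_gf)))
    t_rad (W481.DP.t_real hsteps (W539.DP.t_letter hlift a_gen) W925.DP.t_comp)
    W925.DP.t_comp a_evid hevtw

end Pool.Agent.W710.DP
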