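import Pool.Agent.W710.DP.Defs

/-! Basic lemmas for project DP -/

set_option autoImplicit false

namespace Pool.Agent.W710.DP

open Finsupp

section chains
variable {Z Y : Type}

lemma bd_single (t : List Z) (c : ZMod 2) : bd (single t c) = c • bdL t := by
  simp [bd]

@[simp] lemma bd_single_one (t : List Z) : bd (single t (1 : ZMod 2)) = bdL t := by
  simp [bd]

lemma pr_single (A : List Z → ZMod 2) (t : List Z) (c : ZMod 2) :
    pr A (single t c) = c * A t := by
  simp [pr]

@[simp] lemma pr_single_one (A : List Z → ZMod 2) (t : List Z) :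
    pr A (single t (1 : ZMod 2)) = A t := by
  simp [pr]

lemma pr_eq_sum (A : List Z → ZMod 2) (z : List Z →₀ ZMod 2) :
    pr A z = z.sum fun t c => c * A t := by
  simp [pr, Finsupp.linearCombination_apply]

lemma pr_congr {A B : List Z → ZMod 2} {z : List Z →₀ ZMod 2}
    (h : ∀ t ∈ z.support, A t = B t) : pr A z = pr B z := by
  rw [pr_eq_sum, pr_eq_sum]
  exact Finsupp.sum_congr fun t ht => by rw [h t ht]

lemma pr_zero {A : List Z → ZMod 2} {z : List Z →₀ ZMod 2}
    (h : ∀ t ∈ z.support, A t = 0) : pr A z = 0 := by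
  rw [pr_eq_sum]
  exact Finset.sum_eq_zero fun t ht => by simp [h t ht]

lemma pr_add_fun (A B : List Z → ZMod 2) (z : List Z →₀ ZMod 2) :
    pr (fun t => A t + B t) z = pr A z + pr B z := by
  rw [pr_eq_sum, pr_eq_sum, pr_eq_sum, ← Finsupp.sum_add]
  exact Finsupp.sum_congr fun t _ => by rw [mul_add]

lemma pr_cob (A : List Z → ZMod 2) (z : List Z →₀ ZMod 2) : pr (cob A) z = pr A (bd z) := by
  induction z using Finsupp.induction_linear with
  | zero => simp
  | add f g hf hg => rw [map_add, map_add, map_add, hf, hg]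
  | single t c => rw [pr_single, bd_single, map_smul, smul_eq_mul]; rfl

lemma mapc_zero (f : Z → Y) : mapc f (0 : List Z →₀ ZMod 2) = 0 := by simp [mapc]

lemma mapc_add (f : Z → Y) (z y : List Z →₀ ZMod 2) : mapc f (z + y) = mapc f z + mapc f y := by
  simp [mapc, Finsupp.mapDomain_add]

lemma mapc_smul (f : Z → Y) (c : ZMod 2) (z : List Z →₀ ZMod 2) :
    mapc f (c • z) = c • mapc f z := by
  simp [mapc, Finsupp.mapDomain_smul]

@[simp] lemma mapc_single (f : Z → Y) (t : List Z) (c : ZMod 2) :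
    mapc f (single t c) = single (t.map f) c := by
  simp [mapc, Finsupp.mapDomain_single]

lemma bdL_cons (x : Z) (t : List Z) :
    bdL (x :: t) = single t 1 + (bdL t).mapDomain (fun u => x :: u) := by
  rw [bdL]

@[simp] lemma bdL_nil : bdL ([] : List Z) = 0 := by rw [bdL]

lemma bdL_singleton (x : Z) : bdL [x] = single [] 1 := by
  rw [bdL_cons, bdL_nil, Finsupp.mapDomain_zero, add_zero]

lemma bdL_pair (x y : Z) : bdL [x, y] = single [y] 1 + single [x] 1 := by
  rw [bdL_cons, bdL_singleton, Finsupp.mapDomain_single]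

lemma zz_add_self (z : List Z →₀ ZMod 2) : z + z = 0 := by
  ext t
  simpa using CharTwo.add_self_eq_zero (z t)

lemma bd_cons (x : Z) (z : List Z →₀ ZMod 2) :
    bd (z.mapDomain (fun u => x :: u)) = z + (bd z).mapDomain (fun u => x :: u) := by
  induction z using Finsupp.induction_linear with
  | zero => simp
  | add f g hf hg =>
      rw [Finsupp.mapDomain_add, map_add, map_add, hf, hg, Finsupp.mapDomain_add]; abel
  | single t c =>
      rw [Finsupp.mapDomain_single, bd_single, bd_single, bdL_cons, smul_add,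
        Finsupp.mapDomain_smul, Finsupp.smul_single, smul_eq_mul, mul_one]

lemma bd_bdL (t : List Z) : bd (bdL t) = 0 := by
  induction t with
  | nil => simp
  | cons x t ih =>
      rw [bdL_cons, map_add, bd_single_one, bd_cons, ih, Finsupp.mapDomain_zero, add_zero,
        zz_add_self]

lemma bd_bd (z : List Z →₀ ZMod 2) : bd (bd z) = 0 := by
  induction z using Finsupp.induction_linear with
  | zero => simp
  | add f g hf hg => rw [map_add, map_add, hf, hg, add_zero]
  | single t c => rw [bd_single, map_smul, bd_bdL, smul_zero]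

lemma bdL_map (f : Z → Y) (t : List Z) : bdL (t.map f) = mapc f (bdL t) := by
  induction t with
  | nil => simp [mapc_zero]
  | cons x t ih =>
      rw [List.map_cons, bdL_cons, bdL_cons, mapc_add, mapc_single, ih]
      congr 1
      rw [mapc, mapc, ← Finsupp.mapDomain_comp, ← Finsupp.mapDomain_comp]
      rfl

lemma bd_mapc (f : Z → Y) (z : List Z →₀ ZMod 2) : bd (mapc f z) = mapc f (bd z) := by
  induction z using Finsupp.induction_linear with
  | zero => simp [mapc_zero]
  | add g h hg hh => rw [mapc_add, map_add, map_add, mapc_add, hg, hh]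
  | single t c => rw [mapc_single, bd_single, bd_single, bdL_map, mapc_smul]

lemma pr_mapc (f : Z → Y) (A : List Y → ZMod 2) (z : List Z →₀ ZMod 2) :
    pr A (mapc f z) = pr (fun t => A (t.map f)) z := by
  induction z using Finsupp.induction_linear with
  | zero => simp [mapc_zero]
  | add g h hg hh => rw [mapc_add, map_add, map_add, hg, hh]
  | single t c => rw [mapc_single, pr_single, pr_single]

lemma ev_map (f : Z → Y) (hs : List (Y → ZMod 2)) (t : List Z) :
    ev hs (t.map f) = ev (hs.map (fun h z => h (f z))) t := by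
  induction hs generalizing t with
  | nil => simp [ev]
  | cons h hs ih =>
      match t with
      | [] => simp [ev]
      | [x] => simp [ev]
      | x :: y :: t =>
          have := ih (y :: t)
          simp only [List.map_cons] at this
          simp only [List.map_cons, ev, this]

lemma pr_ev_mapc (f : Z → Y) (hs : List (Y → ZMod 2)) (z : List Z →₀ ZMod 2) :
    pr (ev hs) (mapc f z) = pr (ev (hs.map (fun h z => h (f z)))) z := by
  rw [pr_mapc]
  exact pr_congr fun t _ => ev_map f hs t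

/-- tuples on which one of the functions is constant do not contribute -/
lemma ev_zero_of_const (hs : List (Z → ZMod 2)) (t : List Z) (i : ℕ) (hi : i < hs.length)
    (hc : ∀ p ∈ t, ∀ q ∈ t, hs.getD i 0 p = hs.getD i 0 q) : ev hs t = 0 := by
  induction hs generalizing t i with
  | nil => simp at hi
  | cons h hs ih =>
      match t with
      | [] => simp [ev]
      | [x] => simp [ev]
      | x :: y :: t =>
          rw [ev]
          cases i with
          | zero =>
              have := hc x (by simp) y (by simp)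
              simp only [List.getD_cons_zero] at this
              rw [this, CharTwo.add_self_eq_zero, zero_mul]
          | succ i =>
              rw [ih (y :: t) i (by simpa using hi) ?_, mul_zero]
              intro p hp q hq
              have := hc p (List.mem_cons_of_mem _ hp) q (List.mem_cons_of_mem _ hq)
              simpa only [List.getD_cons_succ] using this

lemma mapc_support (f : Z → Y) (z : List Z →₀ ZMod 2) (u : List Y)
    (hu : u ∈ (mapc f z).support) : ∃ t ∈ z.support, t.map f = u := by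
  classical
  have := Finsupp.mapDomain_support hu
  simpa using this

lemma bdL_support (t u : List Z) (hu : u ∈ (bdL t).support) :
    u.length + 1 = t.length ∧ u.Sublist t := by
  classical
  induction t generalizing u with
  | nil => simp at hu
  | cons x t ih =>
      rw [bdL_cons] at hu
      rcases Finset.mem_union.1 (Finsupp.support_add hu) with h | h
      · have h1 := Finsupp.support_single_subset h
        rw [Finset.mem_singleton] at h1
        subst h1
        exact ⟨by simp, List.sublist_cons_self _ _⟩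
      · have h2 := Finsupp.mapDomain_support h
        rw [Finset.mem_image] at h2
        obtain ⟨w, hw, rfl⟩ := h2
        obtain ⟨h3, h4⟩ := ih w hw
        exact ⟨by simp [h3], h4.cons_cons x⟩

lemma bd_support (z : List Z →₀ ZMod 2) (u : List Z) (hu : u ∈ (bd z).support) :
    ∃ t ∈ z.support, u.length + 1 = t.length ∧ u.Sublist t := by
  classical
  rw [bd, Finsupp.linearCombination_apply] at hu
  have h1 := Finsupp.support_sum hu
  rw [Finset.mem_biUnion] at h1
  obtain ⟨t, ht, h2⟩ := h1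
  exact ⟨t, ht, bdL_support t u (Finsupp.support_smul h2)⟩

end chains

/-! ### words -/

lemma shc_zero (ζ : Cfg) : shc 0 ζ = ζ := rfl

lemma shc_shc (j k : ℕ) (ζ : Cfg) : shc j (shc k ζ) = shc (j + k) ζ := by
  simp [shc, add_assoc]

lemma shc_fst (k : ℕ) (ζ : Cfg) (i : ℕ) : (shc k ζ).1 i = ζ.1 (i + k) := rfl
lemma shc_snd (k : ℕ) (ζ : Cfg) (i : ℕ) : (shc k ζ).2 i = ζ.2 (i + k) := rfl

lemma Sw_append (b : ℝ) (v w : List Letter) (ζ : Cfg) :
    Sw b (v ++ w) ζ = Sw b v ζ + Sw b w (shc v.length ζ) := by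
  induction v generalizing ζ with
  | nil => simp [Sw, shc_zero]
  | cons l v ih =>
      rw [List.cons_append, Sw, Sw, ih, shc_shc, List.length_cons, add_assoc]

lemma Sw_cons (b : ℝ) (l : Letter) (w : List Letter) (ζ : Cfg) :
    Sw b (l :: w) ζ = (ζ.2 0 - b) * (ζ.1 1 - ζ.1 0) - l.G (ζ.1 0) (ζ.2 0) + Sw b w (shc 1 ζ) :=
  rfl

lemma Sw_id_mid (b : ℝ) (v w : List Letter) (ζ : Cfg) :
    Sw b (v ++ idL :: w) ζ = Sw b v ζ +
      (ζ.2 v.length - b) * (ζ.1 (v.length + 1) - ζ.1 v.length) +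
      Sw b w (shc (v.length + 1) ζ) := by
  rw [Sw_append, Sw_cons, shc_shc, shc_fst, shc_fst, shc_snd]
  simp only [idL, zero_add]
  rw [add_comm 1 v.length]
  ring

lemma lt_cons_zero (l : Letter) (w : List Letter) : lt (l :: w) 0 = l := rfl

lemma lt_cons_succ (l : Letter) (w : List Letter) (i : ℕ) : lt (l :: w) (i + 1) = lt w i := by
  simp [lt]

lemma Sw_eq_sum (b : ℝ) (w : List Letter) (ζ : Cfg) :
    Sw b w ζ = ∑ i ∈ Finset.range w.length,
      ((ζ.2 i - b) * (ζ.1 (i + 1) - ζ.1 i) - (lt w i).G (ζ.1 i) (ζ.2 i)) := by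
  induction w generalizing ζ with
  | nil => simp [Sw]
  | cons l w ih =>
      rw [Sw_cons, ih, List.length_cons, Finset.sum_range_succ', add_comm]
      simp only [lt_cons_succ, lt_cons_zero, shc_fst, shc_snd]

lemma Sw_congr (b : ℝ) (w : List Letter) (ζ η : Cfg) (h1 : ∀ i ≤ w.length, ζ.1 i = η.1 i)
    (h2 : ∀ i < w.length, ζ.2 i = η.2 i) : Sw b w ζ = Sw b w η := by
  rw [Sw_eq_sum, Sw_eq_sum]
  refine Finset.sum_congr rfl fun i hi => ?_
  rw [Finset.mem_range] at hi
  rw [h1 i hi.le, h1 (i + 1) hi, h2 i hi]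

lemma lt_mem (w : List Letter) (i : ℕ) (hi : i < w.length) : lt w i ∈ w := by
  rw [lt, List.getD_eq_getElem _ _ hi]
  exact List.getElem_mem hi

lemma good_idL {T e : ℝ} (he : 0 ≤ e) : Good T e idL where
  dx x s := by simpa [idL] using hasDerivAt_const x (0 : ℝ)
  ds x s := by simpa [idL] using hasDerivAt_const s (0 : ℝ)
  per x s := rfl
  lip := ⟨0, le_refl _, fun x s x' s' => by simp [idL]⟩
  half x s s' := by simp [idL]; positivity
  zero x s _ := ⟨rfl, rfl, rfl⟩
  small x s := by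
    refine ⟨by simp [idL], ?_⟩
    simp [idL]; positivity

lemma Good.gx_per {T e : ℝ} {l : Letter} (h : Good T e l) (x s : ℝ) :
    l.gx (x + 1) s = l.gx x s := by
  have h1 := (h.dx (x + 1) s).comp_add_const x 1
  have h2 : (fun y => l.G (y + 1) s) = fun y => l.G y s := by
    funext y; exact h.per y s
  rw [h2] at h1
  exact h1.unique (h.dx x s)

lemma Good.gs_per {T e : ℝ} {l : Letter} (h : Good T e l) (x s : ℝ) :
    l.gs (x + 1) s = l.gs x s := by
  have h1 := h.ds (x + 1) s
  have h2 : (fun y => l.G (x + 1) y) = fun y => l.G x y := by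
    funext y; exact h.per x y
  rw [h2] at h1
  exact h1.unique (h.ds x s)

lemma GoodW.append {T e : ℝ} {v w : List Letter} (hv : GoodW T e v) (hw : GoodW T e w) :
    GoodW T e (v ++ w) := by
  intro l hl
  rcases List.mem_append.1 hl with h | h
  · exact hv l h
  · exact hw l h

lemma GoodW.cons {T e : ℝ} {l : Letter} {w : List Letter} (hl : Good T e l)
    (hw : GoodW T e w) : GoodW T e (l :: w) := by
  intro m hm
  rcases List.mem_cons.1 hm with rfl | h
  · exact hl
  · exact hw m h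

lemma GoodW.mid {T e : ℝ} (he : 0 ≤ e) {v w : List Letter} (hv : GoodW T e v)
    (hw : GoodW T e w) : GoodW T e (v ++ idL :: w) :=
  hv.append (GoodW.cons (good_idL he) hw)

@[simp] lemma hw_length (N : ℕ) : (hw N).length = N := by simp [hw]

lemma hw_succ (N : ℕ) : hw (N + 1) = hw N ++ [hy N] := by
  simp [hw, List.range_succ]

lemma hw_getD (N i : ℕ) (hi : i < N) : (hw N).getD i 0 = hy i := by
  rw [List.getD_eq_getElem _ _ (by simpa using hi)]
  simp [hw]

lemma hy_shc (k i : ℕ) (ζ : Cfg) : hy i (shc k ζ) = hy (i + k) ζ := by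
  have h : (shc k ζ).1 (i + 1) = ζ.1 (i + k + 1) := by
    rw [shc_fst, show i + 1 + k = i + k + 1 by ring]
  have h' : (shc k ζ).1 i = ζ.1 (i + k) := rfl
  unfold hy
  rw [h, h']

lemma hw_add (n k : ℕ) :
    hw (n + k) = hw n ++ (hw k).map (fun h ζ => h (shc n ζ)) := by
  rw [hw, hw, hw, List.range_add, List.map_append, List.map_map, List.map_map]
  congr 1
  refine List.map_congr_left fun i _ => ?_
  funext ζ
  simp only [Function.comp]
  rw [hy_shc, add_comm]

lemma hw_mid (n k : ℕ) :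
    hw (n + 1 + k) = hw n ++ hy n :: (hw k).map (fun h ζ => h (shc (n + 1) ζ)) := by
  rw [hw_add (n + 1) k, hw_succ, List.append_assoc, List.singleton_append]

lemma Close.mono {N : ℕ} {ε δ : ℝ} {ζ η : Cfg} (h : Close N ε ζ η) (hε : ε ≤ δ) :
    Close N δ ζ η :=
  ⟨fun i hi => (h.1 i hi).trans hε, fun i hi => (h.2 i hi).trans hε⟩

lemma Close.le {N n : ℕ} {ε : ℝ} {ζ η : Cfg} (h : Close N ε ζ η) (hn : n ≤ N) :
    Close n ε ζ η :=
  ⟨fun i hi => h.1 i (hi.trans hn), fun i hi => h.2 i (lt_of_lt_of_le hi hn)⟩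

lemma Close.shc {N n k : ℕ} {ε : ℝ} {ζ η : Cfg} (h : Close N ε ζ η) (hn : n + k ≤ N) :
    Close n ε (shc k ζ) (shc k η) :=
  ⟨fun i hi => h.1 (i + k) (by omega), fun i hi => h.2 (i + k) (by omega)⟩

lemma Om.le {T : ℝ} {N n : ℕ} {ζ : Cfg} (h : Om T N ζ) (hn : n ≤ N) : Om T n ζ :=
  fun i hi => h i (lt_of_lt_of_le hi hn)

lemma Om.shc {T : ℝ} {N n k : ℕ} {ζ : Cfg} (h : Om T N ζ) (hn : n + k ≤ N) :
    Om T n (shc k ζ) :=
  fun i hi => h (i + k) (by omega)

/-- the sign of `x_{i+1} - x_i` is the same for close configurations if it is large -/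
lemma hy_eq_of_close {N i : ℕ} {ε : ℝ} {ζ η : Cfg} (h : Close N ε ζ η) (hi : i < N)
    (hb : 2 * ε < |ζ.1 (i + 1) - ζ.1 i|) : hy i ζ = hy i η := by
  have h1 := abs_le.1 (h.1 i hi.le)
  have h2 := abs_le.1 (h.1 (i + 1) hi)
  unfold hy
  rcases lt_abs.1 hb with h3 | h3
  · rw [if_pos (by linarith), if_pos (by linarith)]
  · rw [if_neg (by linarith), if_neg (by linarith)]

/-! ### area preserving maps -/

lemma AP.continuous {f : Equiv.Perm ℂ} (h : AP f) : Continuous f := h.1.continuous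
lemma AP.continuous_symm {f : Equiv.Perm ℂ} (h : AP f) : Continuous f.symm := h.2.1.continuous

lemma AP.differentiable {f : Equiv.Perm ℂ} (h : AP f) : Differentiable ℝ f :=
  h.1.differentiable (by simp)

lemma AP.differentiable_symm {f : Equiv.Perm ℂ} (h : AP f) : Differentiable ℝ f.symm :=
  h.2.1.differentiable (by simp)

lemma AP_one : AP 1 := by
  refine ⟨contDiff_id, contDiff_id, fun z => ?_⟩
  have : fderiv ℝ (⇑(1 : Equiv.Perm ℂ)) z = ContinuousLinearMap.id ℝ ℂ := fderiv_id
  rw [this]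
  exact LinearMap.det_id

lemma AP_mul {f g : Equiv.Perm ℂ} (hf : AP f) (hg : AP g) : AP (f * g) := by
  refine ⟨hf.1.comp hg.1, ?_, fun z => ?_⟩
  · have : ⇑(f * g).symm = ⇑g.symm ∘ ⇑f.symm := rfl
    rw [this]
    exact hg.2.1.comp hf.2.1
  · have h1 : fderiv ℝ (⇑(f * g)) z = (fderiv ℝ f (g z)).comp (fderiv ℝ g z) :=
      fderiv_comp z (hf.differentiable _) (hg.differentiable _)
    rw [h1]
    have h2 : ((((fderiv ℝ f (g z)).comp (fderiv ℝ g z) : ℂ →L[ℝ] ℂ)) : ℂ →ₗ[ℝ] ℂ) =
      ((fderiv ℝ f (g z) : ℂ →L[ℝ] ℂ) : ℂ →ₗ[ℝ] ℂ).comp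
        ((fderiv ℝ g z : ℂ →L[ℝ] ℂ) : ℂ →ₗ[ℝ] ℂ) := rfl
    rw [h2, LinearMap.det_comp, hf.2.2, hg.2.2, mul_one]

lemma AP_inv {f : Equiv.Perm ℂ} (hf : AP f) : AP f⁻¹ := by
  refine ⟨hf.2.1, ?_, fun z => ?_⟩
  · have : ⇑(f⁻¹).symm = ⇑f := rfl
    rw [this]
    exact hf.1
  · have h0 : (fun w => f (f.symm w)) = id := by funext w; simp
    have h1 : fderiv ℝ (fun w => f (f.symm w)) z =
        (fderiv ℝ f (f.symm z)).comp (fderiv ℝ f.symm z) :=
      fderiv_comp z (hf.differentiable _) (hf.differentiable_symm _)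
    rw [h0, fderiv_id] at h1
    have h2 : ((ContinuousLinearMap.id ℝ ℂ : ℂ →L[ℝ] ℂ) : ℂ →ₗ[ℝ] ℂ) =
      ((fderiv ℝ f (f.symm z) : ℂ →L[ℝ] ℂ) : ℂ →ₗ[ℝ] ℂ).comp
        ((fderiv ℝ f.symm z : ℂ →L[ℝ] ℂ) : ℂ →ₗ[ℝ] ℂ) := by
      rw [h1]; rfl
    have h3 := congrArg LinearMap.det h2
    rw [LinearMap.det_comp, hf.2.2, one_mul] at h3
    have h4 : ((ContinuousLinearMap.id ℝ ℂ : ℂ →L[ℝ] ℂ) : ℂ →ₗ[ℝ] ℂ) = LinearMap.id := rfl
    rw [h4, LinearMap.det_id] at h3
    exact h3.symm

lemma CS_one : CS 1 := ⟨0, fun _ _ => rfl⟩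

lemma CS_mul {f g : Equiv.Perm ℂ} (hf : CS f) (hg : CS g) : CS (f * g) := by
  obtain ⟨r, hr⟩ := hf
  obtain ⟨s, hs⟩ := hg
  refine ⟨max r s, fun z hz => ?_⟩
  rw [Equiv.Perm.mul_apply, hs z (lt_of_le_of_lt (le_max_right _ _) hz),
    hr z (lt_of_le_of_lt (le_max_left _ _) hz)]

lemma CS_inv {f : Equiv.Perm ℂ} (hf : CS f) : CS f⁻¹ := by
  obtain ⟨r, hr⟩ := hf
  refine ⟨r, fun z hz => ?_⟩
  rw [Equiv.Perm.inv_eq_iff_eq, hr z hz]

lemma Id0_one : Id0 1 := ⟨1, one_pos, fun _ _ => rfl⟩

lemma Id0_mul {f g : Equiv.Perm ℂ} (hf : Id0 f) (hg : Id0 g) : Id0 (f * g) := by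
  obtain ⟨r, hr0, hr⟩ := hf
  obtain ⟨s, hs0, hs⟩ := hg
  refine ⟨min r s, lt_min hr0 hs0, fun z hz => ?_⟩
  rw [Equiv.Perm.mul_apply, hs z (lt_of_lt_of_le hz (min_le_right _ _)),
    hr z (lt_of_lt_of_le hz (min_le_left _ _))]

lemma Id0_inv {f : Equiv.Perm ℂ} (hf : Id0 f) : Id0 f⁻¹ := by
  obtain ⟨r, hr0, hr⟩ := hf
  refine ⟨r, hr0, fun z hz => ?_⟩
  rw [Equiv.Perm.inv_eq_iff_eq, hr z hz]

lemma norm_E (x s : ℝ) : ‖E x s‖ = Real.sqrt (s / Real.pi) := by
  unfold E
  rw [norm_mul, Complex.norm_real, Real.norm_of_nonneg (Real.sqrt_nonneg _)]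
  have : (2 * Real.pi * x * Complex.I : ℂ) = ((2 * Real.pi * x : ℝ) : ℂ) * Complex.I := by
    push_cast; ring
  rw [this, Complex.norm_exp_ofReal_mul_I, mul_one]

lemma ar_E (x s : ℝ) (hs : 0 ≤ s) : ar (E x s) = s := by
  unfold ar
  rw [norm_E, Real.sq_sqrt (div_nonneg hs Real.pi_pos.le), mul_div_cancel₀ _ Real.pi_ne_zero]

lemma ar_nonneg (z : ℂ) : 0 ≤ ar z := by unfold ar; positivity

end Pool.Agent.W710.DP
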