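import Pool.Agent.W710.DP.Base
import Pool.Agent.W710.DP.Stm1

/-! The core inequality of project DP -/

set_option autoImplicit false

namespace Pool.Agent.W710.DP

open Finsupp

lemma NN.mono {b T : ℝ} {w : List Letter} {a a' : ℝ} (h : NN b T w a) (ha : a ≤ a') :
    NN b T w a' := by
  intro M ε hε
  obtain ⟨z, h1, h2, h3⟩ := h M ε hε
  exact ⟨z, fun t ht => ⟨(h1 t ht).1, (h1 t ht).2.1, fun p hp =>
    ⟨((h1 t ht).2.2 p hp).1, ((h1 t ht).2.2 p hp).2.trans ha⟩⟩, h2, h3⟩

/-- the spectral value of a word -/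
noncomputable def lam (b T : ℝ) (w : List Letter) : ℝ := sInf {a | NN b T w a}

section
variable {b T e : ℝ}

lemma lam_bdd (hlow : S_low) (hP : Par b T e) {w : List Letter} (hw : GoodW T e w) :
    BddBelow {a | NN b T w a} := by
  obtain ⟨a0, h⟩ := hlow b T e w hP hw
  refine ⟨a0, fun a ha => ?_⟩
  by_contra hc
  exact h a (not_le.1 hc).le ha

lemma lam_le (hlow : S_low) (hP : Par b T e) {w : List Letter} (hw : GoodW T e w) {a : ℝ}
    (h : NN b T w a) : lam b T w ≤ a :=
  csInf_le (lam_bdd hlow hP hw) h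

lemma NN_of_lam_lt (hbase : S_base) (hP : Par b T e) {w : List Letter}
    (hw : GoodW T e w) {a : ℝ} (h : lam b T w < a) : NN b T w a := by
  obtain ⟨a', ha', hlt⟩ := exists_lt_of_csInf_lt ⟨_, hbase b T e w hP hw⟩ h
  exact NN.mono ha' hlt.le

lemma NN_nil {a : ℝ} (h : NN b T [] a) : 0 ≤ a := by
  obtain ⟨z, h1, _, h3⟩ := h 0 1 one_pos
  by_contra hc
  have : pr (ev (hw (List.length ([] : List Letter)))) z = 0 := by
    refine pr_zero fun t ht => ?_
    exfalso
    obtain ⟨h4, _, h5⟩ := h1 t ht
    match t, h4 with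
    | p :: _, _ =>
      have := (h5 p (by simp)).2
      simp only [Sw] at this
      exact hc this
  rw [this] at h3
  exact zero_ne_one h3

/-- a word and a word realising the inverse map -/
lemma lam_inv (hlow : S_low) (hbase : S_base) (hpush : S_push) (hsub : S_sub)
    (hP : Par b T e) {v w : List Letter} (hv : GoodW T e v) (hw : GoodW T e w)
    (hc : ∀ ζ, Crit b (v ++ idL :: w) ζ → 0 ≤ Sw b (v ++ idL :: w) ζ) :
    -(b + 1) ≤ lam b T v + lam b T w := by
  by_contra hlt
  rw [not_le] at hlt
  set d := -(b + 1) - (lam b T v + lam b T w) with hd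
  have hd0 : 0 < d := by linarith
  have h1 := NN_of_lam_lt hbase hP hv (a := lam b T v + d / 3) (by linarith)
  have h2 := NN_of_lam_lt hbase hP hw (a := lam b T w + d / 3) (by linarith)
  have h3 := hsub b T e v w hP hv hw _ _ h1 h2
  have hg : GoodW T e (v ++ idL :: w) := hv.mid hP.1.le hw
  obtain ⟨a0, h4⟩ := hlow b T e _ hP hg
  refine h4 a0 le_rfl (hpush b T e _ hP hg a0 _ ?_ h3)
  intro ζ _ hcr hh
  have := hc ζ hcr
  linarith [hh.2]

lemma joinW_good (he : 0 ≤ e) (B : List (List Letter)) (hB : ∀ w ∈ B, GoodW T e w) :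
    GoodW T e (joinW B) := by
  induction B with
  | nil => intro l hl; simp [joinW] at hl
  | cons w B ih =>
      cases B with
      | nil => simpa [joinW] using hB w (by simp)
      | cons v B =>
          rw [joinW]
          exact (hB w (by simp)).mid he (ih fun u hu => hB u (List.mem_cons_of_mem _ hu))

lemma joinW_ne_nil (w : List Letter) (hw : w ≠ []) (B : List (List Letter)) :
    joinW (w :: B) ≠ [] := by
  cases B with
  | nil => simpa [joinW] using hw
  | cons v B => rw [joinW]; simp

lemma sum_lam_le (hlow : S_low) (hsup : S_sup) (hP : Par b T e)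
    (B : List (List Letter)) (hB : ∀ w ∈ B, GoodW T e w ∧ w ≠ []) :
    ∀ a : ℝ, NN b T (joinW B) a → (B.map (lam b T)).sum ≤ a := by
  induction B with
  | nil => intro a ha; simpa using NN_nil ha
  | cons w B ih =>
      cases B with
      | nil =>
          intro a ha
          simp only [List.map_cons, List.map_nil, List.sum_cons, List.sum_nil, add_zero]
          exact lam_le hlow hP (hB w (by simp)).1 ha
      | cons v B =>
          intro a ha
          by_contra hlt
          rw [not_le] at hlt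
          have hB' : ∀ u ∈ v :: B, GoodW T e u ∧ u ≠ [] :=
            fun u hu => hB u (List.mem_cons_of_mem _ hu)
          set s := ((v :: B).map (lam b T)).sum with hs
          have hsum : ((w :: v :: B).map (lam b T)).sum = lam b T w + s := by
            rw [List.map_cons, List.sum_cons]
          rw [hsum] at hlt
          set d := lam b T w + s - a with hd
          rw [joinW] at ha
          rcases hsup b T e w (joinW (v :: B)) hP (hB w (by simp)).1
            (joinW_good hP.1.le _ fun u hu => (hB' u hu).1) (hB w (by simp)).2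
            (joinW_ne_nil v (hB v (by simp)).2 B) a (lam b T w - d / 3) (s - d / 3)
            (by linarith) ha with h | h
          · have := lam_le hlow hP (hB w (by simp)).1 h
            linarith
          · have := ih hB' _ h
            linarith

/-- the core inequality -/
theorem core (hlow : S_low) (hbase : S_base) (hpush : S_push) (hsub : S_sub) (hsup : S_sup)
    (hP : Par b T e)
    (Q : List ((List Letter × List Letter) × (List Letter × List Letter)))
    (hQ : ∀ q ∈ Q, ((GoodW T e q.1.1 ∧ q.1.1 ≠ []) ∧ (GoodW T e q.1.2 ∧ q.1.2 ≠ [])) ∧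
      ((GoodW T e q.2.1 ∧ q.2.1 ≠ []) ∧ (GoodW T e q.2.2 ∧ q.2.2 ≠ [])) ∧
      (∀ ζ, Crit b (q.1.1 ++ idL :: q.1.2) ζ → 0 ≤ Sw b (q.1.1 ++ idL :: q.1.2) ζ) ∧
      (∀ ζ, Crit b (q.2.1 ++ idL :: q.2.2) ζ → 0 ≤ Sw b (q.2.1 ++ idL :: q.2.2) ζ))
    (c : ℝ)
    (hc : ∀ ζ, Crit b (joinW (Q.flatMap fun q => [q.2.2, q.1.2, q.2.1, q.1.1])) ζ →
      Sw b (joinW (Q.flatMap fun q => [q.2.2, q.1.2, q.2.1, q.1.1])) ζ ≤ c) :
    -(2 * (Q.length : ℝ) * (b + 1)) ≤ c := by
  set B := Q.flatMap fun q => [q.2.2, q.1.2, q.2.1, q.1.1] with hBdef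
  have hB : ∀ w ∈ B, GoodW T e w ∧ w ≠ [] := by
    intro w hw
    rw [hBdef, List.mem_flatMap] at hw
    obtain ⟨q, hq, hw⟩ := hw
    obtain ⟨⟨h1, h2⟩, ⟨h3, h4⟩, _⟩ := hQ q hq
    simp only [List.mem_cons, List.not_mem_nil, or_false] at hw
    rcases hw with rfl | rfl | rfl | rfl
    · exact h4
    · exact h2
    · exact h3
    · exact h1
  have hsum : -(2 * (Q.length : ℝ) * (b + 1)) ≤ (B.map (lam b T)).sum := by
    rw [hBdef]
    clear hB hc hBdef B
    induction Q with
    | nil => simp
    | cons q Q ih =>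
        have ih' := ih fun q' hq' => hQ q' (List.mem_cons_of_mem _ hq')
        obtain ⟨⟨h1, h2⟩, ⟨h3, h4⟩, h5, h6⟩ := hQ q (by simp)
        have k1 := lam_inv hlow hbase hpush hsub hP h1.1 h2.1 h5
        have k2 := lam_inv hlow hbase hpush hsub hP h3.1 h4.1 h6
        simp only [List.flatMap_cons, List.map_append, List.sum_append, List.map_cons,
          List.map_nil, List.sum_cons, List.sum_nil, List.length_cons, Nat.cast_add,
          Nat.cast_one]
        linarith
  have hgood : GoodW T e (joinW B) := joinW_good hP.1.le B fun w hw => (hB w hw).1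
  have hNN : ∀ δ > 0, NN b T (joinW B) (c + δ) := by
    intro δ hδ
    refine hpush b T e _ hP hgood (c + δ) _ ?_ (hbase b T e _ hP hgood)
    intro ζ _ hcr hh
    have := hc ζ hcr
    linarith [hh.1]
  refine hsum.trans (le_of_forall_pos_le_add fun δ hδ => ?_)
  exact sum_lam_le hlow hsup hP B hB _ (hNN δ hδ)

end

end Pool.Agent.W710.DP
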