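import Mathlib

/-!
Definitions for project DP (MP_e8131c_gt, S14156: the group of area preserving
diffeomorphisms of the plane is not perfect).

Part I: chains of tuples mod 2, letters, words, the action functional `Sw` of a word.
Part II: area preserving diffeomorphisms of ℂ, orbits of words, realisation of maps by words.
-/

set_option autoImplicit false

namespace Pool.Agent.W710.DP

/-! ### Chains of tuples (mod 2, augmented) -/

section chains
variable {Z : Type}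

/-- boundary of a tuple, mod 2, augmented: `bdL [x] = single [] 1`, `bdL [] = 0` -/
noncomputable def bdL : List Z → (List Z →₀ ZMod 2)
  | [] => 0
  | x :: t => Finsupp.single t 1 + (bdL t).mapDomain (fun u => x :: u)

/-- boundary of a chain -/
noncomputable def bd : (List Z →₀ ZMod 2) →ₗ[ZMod 2] (List Z →₀ ZMod 2) :=
  Finsupp.linearCombination (ZMod 2) bdL

/-- the cup product of the coboundaries of the functions `hs`, on a tuple -/
def ev : List (Z → ZMod 2) → List Z → ZMod 2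
  | [], _ => 1
  | h :: hs, x :: y :: t => (h x + h y) * ev hs (y :: t)
  | _ :: _, _ => 0

/-- a cochain (any function of tuples) evaluated on a chain -/
noncomputable def pr (A : List Z → ZMod 2) : (List Z →₀ ZMod 2) →ₗ[ZMod 2] ZMod 2 :=
  Finsupp.linearCombination (ZMod 2) A

/-- coboundary of a cochain -/
noncomputable def cob (A : List Z → ZMod 2) (t : List Z) : ZMod 2 := pr A (bdL t)

/-- push forward of a chain by a map of points -/
noncomputable def mapc {Y : Type} (f : Z → Y) (z : List Z →₀ ZMod 2) : List Y →₀ ZMod 2 :=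
  z.mapDomain (List.map f)

/-- `z` is a relative cycle: its tuples have `hs.length + 1` points and satisfy `P`,
all points of the tuples of its boundary satisfy `Q`, and it pairs to `1` with `hs`. -/
def Cyc (hs : List (Z → ZMod 2)) (P : List Z → Prop) (Q : Z → Prop)
    (z : List Z →₀ ZMod 2) : Prop :=
  (∀ t ∈ z.support, t.length = hs.length + 1 ∧ P t) ∧
  (∀ t ∈ (bd z).support, ∀ p ∈ t, Q p) ∧ pr (ev hs) z = 1

end chains

/-- Eilenberg-Zilber product of two tuples -/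
noncomputable def ez {X Y : Type} : List X → List Y → (List (X × Y) →₀ ZMod 2)
  | [], _ => 0
  | _ :: _, [] => 0
  | [x], [y] => Finsupp.single [(x, y)] 1
  | x :: s, y :: t => (ez s (y :: t) + ez (x :: s) t).mapDomain (fun u => (x, y) :: u)
termination_by s t => s.length + t.length

/-- Eilenberg-Zilber product of two chains -/
noncomputable def ezc {X Y : Type} :
    (List X →₀ ZMod 2) →ₗ[ZMod 2] (List Y →₀ ZMod 2) →ₗ[ZMod 2] (List (X × Y) →₀ ZMod 2) :=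
  Finsupp.linearCombination (ZMod 2) (fun s => Finsupp.linearCombination (ZMod 2) (ez s))

/-! ### Letters and words -/

/-- a letter: a generating function `G x S` with its two partial derivatives -/
structure Letter where
  G : ℝ → ℝ → ℝ
  gx : ℝ → ℝ → ℝ
  gs : ℝ → ℝ → ℝ

/-- the identity letter -/
def idL : Letter := ⟨fun _ _ => 0, fun _ _ => 0, fun _ _ => 0⟩

/-- a good letter -/
structure Good (T e : ℝ) (l : Letter) : Prop where
  dx : ∀ x s, HasDerivAt (fun y => l.G y s) (l.gx x s) x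
  ds : ∀ x s, HasDerivAt (fun y => l.G x y) (l.gs x s) s
  per : ∀ x s, l.G (x + 1) s = l.G x s
  lip : ∃ K : ℝ, 0 ≤ K ∧ ∀ x s x' s', |l.gx x s - l.gx x' s'| ≤ K * (|x - x'| + |s - s'|) ∧
    |l.gs x s - l.gs x' s'| ≤ K * (|x - x'| + |s - s'|)
  half : ∀ x s s', |l.gx x s - l.gx x s'| ≤ |s - s'| / 2
  zero : ∀ x s, s ≤ e ∨ T - e ≤ s → l.G x s = 0 ∧ l.gx x s = 0 ∧ l.gs x s = 0
  small : ∀ x s, |l.G x s| ≤ 1 / 4 ∧ |l.gx x s| ≤ e / 4

/-- all letters of the word are good -/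
def GoodW (T e : ℝ) (w : List Letter) : Prop := ∀ l ∈ w, Good T e l

/-- the parameters -/
def Par (b T e : ℝ) : Prop := 0 < e ∧ e < b ∧ e < T - b

/-- configurations `ζ = (x, S)`; for a word of length `N` only `x_0..x_N` and `S_0..S_{N-1}`
matter -/
abbrev Cfg : Type := (ℕ → ℝ) × (ℕ → ℝ)

/-- shifted configuration -/
def shc (k : ℕ) (ζ : Cfg) : Cfg := (fun i => ζ.1 (i + k), fun i => ζ.2 (i + k))

/-- the functional of a word -/
def Sw (b : ℝ) : List Letter → Cfg → ℝ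
  | [], _ => 0
  | l :: w, ζ => (ζ.2 0 - b) * (ζ.1 1 - ζ.1 0) - l.G (ζ.1 0) (ζ.2 0) + Sw b w (shc 1 ζ)

/-- `i`-th letter -/
def lt (w : List Letter) (i : ℕ) : Letter := w.getD i idL

/-- `S_{i-1}` with the convention `S_{-1} = b` -/
def sm (b : ℝ) (ζ : Cfg) (i : ℕ) : ℝ := if i = 0 then b else ζ.2 (i - 1)

/-- partial derivative of `Sw` in `x_i` (`i ≤ w.length`) -/
def gradX (b : ℝ) (w : List Letter) (ζ : Cfg) (i : ℕ) : ℝ :=
  if i < w.length then sm b ζ i - ζ.2 i - (lt w i).gx (ζ.1 i) (ζ.2 i) else sm b ζ i - b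

/-- partial derivative of `Sw` in `S_i` (`i < w.length`) -/
def gradS (w : List Letter) (ζ : Cfg) (i : ℕ) : ℝ :=
  ζ.1 (i + 1) - ζ.1 i - (lt w i).gs (ζ.1 i) (ζ.2 i)

/-- critical configurations -/
def Crit (b : ℝ) (w : List Letter) (ζ : Cfg) : Prop :=
  (∀ i ≤ w.length, gradX b w ζ i = 0) ∧ ∀ i < w.length, gradS w ζ i = 0

/-- the domain: `0 ≤ S_i ≤ T` for `i < N` -/
def Om (T : ℝ) (N : ℕ) (ζ : Cfg) : Prop := ∀ i < N, 0 ≤ ζ.2 i ∧ ζ.2 i ≤ T

/-- closeness of the relevant coordinates -/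
def Close (N : ℕ) (ε : ℝ) (ζ η : Cfg) : Prop :=
  (∀ i ≤ N, |ζ.1 i - η.1 i| ≤ ε) ∧ ∀ i < N, |ζ.2 i - η.2 i| ≤ ε

/-- all points of the tuple are `ε`-close to each other -/
def CloseT (N : ℕ) (ε : ℝ) (t : List Cfg) : Prop := ∀ p ∈ t, ∀ q ∈ t, Close N ε p q

/-- the function `1[x_{i+1} - x_i > 0]` -/
noncomputable def hy (i : ℕ) (ζ : Cfg) : ZMod 2 := if 0 < ζ.1 (i + 1) - ζ.1 i then 1 else 0

/-- the functions `hy 0, ..., hy (N-1)` -/
noncomputable def hw (N : ℕ) : List (Cfg → ZMod 2) := (List.range N).map hy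

/-- nonvanishing of the fundamental class of the sublevel `a` relative to very negative levels -/
def NN (b T : ℝ) (w : List Letter) (a : ℝ) : Prop :=
  ∀ M : ℝ, ∀ ε > 0, ∃ z : List Cfg →₀ ZMod 2,
    Cyc (hw w.length) (fun t => CloseT w.length ε t ∧ ∀ p ∈ t, Om T w.length p ∧ Sw b w p ≤ a)
      (fun p => Sw b w p ≤ -M) z

/-- same, with `|x_{i+1} - x_i|` bounded by `Y` independent of `ε` -/
def NNB (b T : ℝ) (w : List Letter) (a : ℝ) : Prop :=
  ∀ M : ℝ, ∃ Y : ℝ, 0 ≤ Y ∧ ∀ ε > 0, ∃ z : List Cfg →₀ ZMod 2,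
    Cyc (hw w.length) (fun t => CloseT w.length ε t ∧
        ∀ p ∈ t, (Om T w.length p ∧ Sw b w p ≤ a) ∧ ∀ i < w.length, |p.1 (i + 1) - p.1 i| ≤ Y)
      (fun p => Sw b w p ≤ -M) z

/-- one step of the projected gradient flow -/
noncomputable def Dst (τ b T : ℝ) (w : List Letter) (ζ : Cfg) : Cfg :=
  (fun i => ζ.1 i - τ * gradX b w ζ i, fun i => max 0 (min T (ζ.2 i - τ * gradS w ζ i)))

/-- concatenation of blocks, separated by identity letters -/
def joinW : List (List Letter) → List Letter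
  | [] => []
  | [w] => w
  | w :: v :: B => w ++ idL :: joinW (v :: B)

/-! ### The plane -/

/-- area preserving diffeomorphisms of `ℂ = ℝ²` -/
def AP (f : Equiv.Perm ℂ) : Prop :=
  ContDiff ℝ ((⊤ : ℕ∞) : WithTop ℕ∞) (⇑f) ∧ ContDiff ℝ ((⊤ : ℕ∞) : WithTop ℕ∞) (⇑f.symm) ∧
    ∀ z : ℂ, LinearMap.det ((fderiv ℝ (⇑f) z : ℂ →L[ℝ] ℂ) : ℂ →ₗ[ℝ] ℂ) = 1

/-- identity near `0` -/
def Id0 (f : Equiv.Perm ℂ) : Prop := ∃ r : ℝ, 0 < r ∧ ∀ z : ℂ, ‖z‖ < r → f z = z

/-- compactly supported -/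
def CS (f : Equiv.Perm ℂ) : Prop := ∃ r : ℝ, ∀ z : ℂ, r < ‖z‖ → f z = z

/-- polar coordinates: angle `x` (in turns) and area `s` -/
noncomputable def E (x s : ℝ) : ℂ :=
  ((Real.sqrt (s / Real.pi) : ℝ) : ℂ) * Complex.exp (2 * Real.pi * x * Complex.I)

/-- the area coordinate -/
noncomputable def ar (z : ℂ) : ℝ := Real.pi * ‖z‖ ^ 2

/-- the twist map `(x, s) ↦ (x + 2 s, s)` -/
noncomputable def twist (z : ℂ) : ℂ := z * Complex.exp (4 * Real.pi * ar z * Complex.I)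

/-- orbits of a word, with action -/
def Orb : List Letter → ℝ → ℝ → ℝ → ℝ → ℝ → Prop
  | [], x, s, x', s', A => x' = x ∧ s' = s ∧ A = 0
  | l :: w, x, s, x', s', A => ∃ x1 s1 : ℝ, s = s1 + l.gx x s1 ∧ x1 = x + l.gs x s1 ∧
      Orb w x1 s1 x' s' (A - (s1 * (x1 - x) - l.G x s1))

/-- the word `w` realises the map `g` on `D \ {0}`, along differentiable curves -/
def Realises (w : List Letter) (g : ℂ → ℂ) (D : Set ℂ) : Prop :=
  ∃ c > 0, ∀ (α β : ℝ) (x s x₁ s₁ : ℝ → ℝ),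
    (∀ t ∈ Set.Ioo α β, HasDerivAt x (x₁ t) t ∧ HasDerivAt s (s₁ t) t ∧ 0 < s t ∧
      E (x t) (s t) ∈ D) →
    ∃ X S A X₁ S₁ : ℝ → ℝ, ∀ t ∈ Set.Ioo α β,
      HasDerivAt X (X₁ t) t ∧ HasDerivAt S (S₁ t) t ∧ 0 < S t ∧
      HasDerivAt A (S t * X₁ t - s t * x₁ t) t ∧
      Orb w (x t) (s t) (X t) (S t) (A t) ∧
      E (X t) (S t) = g (E (x t) (s t)) ∧
      (s t < c → X t = x t ∧ S t = s t ∧ A t = 0)

/-- the disc of area `R` -/
def Dc (R : ℝ) : Set ℂ := {z | ar z < R}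

/-- composite of a list of maps, the first one is applied first -/
def compL : List (Equiv.Perm ℂ) → ℂ → ℂ
  | [], z => z
  | f :: L, z => compL L (f z)

/-- all partial images stay in the disc of area `ρ` -/
def Stay (ρ : ℝ) : List (Equiv.Perm ℂ) → ℂ → Prop
  | [], _ => True
  | f :: L, z => ar z < ρ ∧ Stay ρ L (f z)

/-- partial derivatives -/
noncomputable def px (u : ℝ × ℝ → ℝ) (p : ℝ × ℝ) : ℝ := fderiv ℝ u p (1, 0)
noncomputable def ps (u : ℝ × ℝ → ℝ) (p : ℝ × ℝ) : ℝ := fderiv ℝ u p (0, 1)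

/-- `(x, s) ↦ (x + u, s + v)` has Jacobian one at `p` -/
def Jac1 (u v : ℝ × ℝ → ℝ) (p : ℝ × ℝ) : Prop :=
  (1 + px u p) * (1 + ps v p) - ps u p * px v p = 1

/-- smooth functions, `C^1` small -/
def SmallC1 (δ : ℝ) (u : ℝ × ℝ → ℝ) : Prop :=
  ContDiff ℝ ((⊤ : ℕ∞) : WithTop ℕ∞) u ∧ ∀ p, |u p| ≤ δ ∧ ‖fderiv ℝ u p‖ ≤ δ

/-- `(x, s) ↦ (x + u, s + v)` is periodic, the identity for `s ≤ s0`, `C^1`-close to the identity,
area preserving for `s < ρ + 3` -/
def Strip (s0 ρ δ : ℝ) (u v : ℝ × ℝ → ℝ) : Prop :=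
  SmallC1 δ u ∧ SmallC1 δ v ∧ (∀ x s, u (x + 1, s) = u (x, s) ∧ v (x + 1, s) = v (x, s)) ∧
  (∀ x s, s ≤ s0 → u (x, s) = 0 ∧ v (x, s) = 0) ∧ ∀ x s, s < ρ + 3 → Jac1 u v (x, s)

end Pool.Agent.W710.DP
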