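import Pool.Agent.W710.DP.Core
import Pool.Agent.W710.DP.Stm2

/-! Final assembly of project DP -/

set_option autoImplicit false

namespace Pool.Agent.W710.DP

open Finsupp

lemma Realises.mono {w : List Letter} {g g' : ℂ → ℂ} {D D' : Set ℂ} (h : Realises w g D)
    (hD : D' ⊆ D) (hg : ∀ z ∈ D', g z = g' z) : Realises w g' D' := by
  obtain ⟨c, hc, h⟩ := h
  refine ⟨c, hc, fun α β x s x₁ s₁ hx => ?_⟩
  obtain ⟨X, S, A, X₁, S₁, hh⟩ := h α β x s x₁ s₁ fun t ht =>
    ⟨(hx t ht).1, (hx t ht).2.1, (hx t ht).2.2.1, hD (hx t ht).2.2.2⟩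
  refine ⟨X, S, A, X₁, S₁, fun t ht => ?_⟩
  obtain ⟨h1, h2, h3, h4, h5, h6, h7⟩ := hh t ht
  exact ⟨h1, h2, h3, h4, h5, h6.trans (hg _ (hx t ht).2.2.2), h7⟩

lemma Realises_nil : Realises [] (fun z => z) Set.univ := by
  refine ⟨1, one_pos, fun α β x s x₁ s₁ hx => ⟨x, s, fun _ => 0, x₁, s₁, fun t ht => ?_⟩⟩
  obtain ⟨h1, h2, h3, _⟩ := hx t ht
  refine ⟨h1, h2, h3, ?_, ⟨rfl, rfl, rfl⟩, rfl, fun _ => ⟨rfl, rfl, rfl⟩⟩
  rw [sub_self]
  exact hasDerivAt_const t 0

lemma Realises_idL : Realises [idL] (fun z => z) Set.univ := by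
  refine ⟨1, one_pos, fun α β x s x₁ s₁ hx => ⟨x, s, fun _ => 0, x₁, s₁, fun t ht => ?_⟩⟩
  obtain ⟨h1, h2, h3, _⟩ := hx t ht
  refine ⟨h1, h2, h3, ?_, ⟨x t, s t, ?_, ?_, rfl, rfl, ?_⟩, rfl, fun _ => ⟨rfl, rfl, rfl⟩⟩
  · rw [sub_self]
    exact hasDerivAt_const t 0
  · simp [idL]
  · simp [idL]
  · simp [idL]

lemma Realises_join (hcomp : S_comp) (ρ : ℝ) (M : List (Equiv.Perm ℂ))
    (W : Equiv.Perm ℂ → List Letter) (hW : ∀ a ∈ M, Realises (W a) a (Dc ρ)) :
    Realises (joinW (M.map W)) (compL M) {z | Stay ρ M z} := by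
  induction M with
  | nil =>
      simp only [List.map_nil, joinW]
      exact Realises_nil.mono (Set.subset_univ _) fun z _ => rfl
  | cons a M ih =>
      cases M with
      | nil =>
          simp only [List.map_cons, List.map_nil, joinW]
          exact (hW a (by simp)).mono (fun z hz => hz.1) fun z _ => rfl
      | cons a' M =>
          have ih' := ih fun b hb => hW b (List.mem_cons_of_mem _ hb)
          have h1 := hcomp _ _ _ _ _ _ (Realises_idL) ih'
          have h2 := hcomp _ _ _ _ _ _ (hW a (by simp)) h1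
          simp only [List.map_cons, joinW] at h2 ⊢
          refine h2.mono ?_ ?_
          · intro z hz
            exact ⟨hz.1, Set.mem_univ _, hz.2⟩
          · intro z _
            rfl

lemma AP_cmm {p : Equiv.Perm ℂ × Equiv.Perm ℂ} (h1 : AP p.1) (h2 : AP p.2) : AP (cmm p) :=
  AP_mul (AP_mul (AP_mul h1 h2) (AP_inv h1)) (AP_inv h2)

lemma Id0_cmm {p : Equiv.Perm ℂ × Equiv.Perm ℂ} (h1 : Id0 p.1) (h2 : Id0 p.2) : Id0 (cmm p) :=
  Id0_mul (Id0_mul (Id0_mul h1 h2) (Id0_inv h1)) (Id0_inv h2)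

lemma AP_prod {L : List (Equiv.Perm ℂ × Equiv.Perm ℂ)}
    (h : ∀ p ∈ L, AP p.1 ∧ Id0 p.1 ∧ AP p.2 ∧ Id0 p.2) :
    AP (L.map cmm).prod ∧ Id0 (L.map cmm).prod := by
  induction L with
  | nil => exact ⟨AP_one, Id0_one⟩
  | cons p L ih =>
      obtain ⟨h1, h2, h3, h4⟩ := h p (by simp)
      obtain ⟨h5, h6⟩ := ih fun q hq => h q (List.mem_cons_of_mem _ hq)
      rw [List.map_cons, List.prod_cons]
      exact ⟨AP_mul (AP_cmm h1 h3) h5, Id0_mul (Id0_cmm h2 h4) h6⟩

lemma compL_append (M N : List (Equiv.Perm ℂ)) (z : ℂ) :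
    compL (M ++ N) z = compL N (compL M z) := by
  induction M generalizing z with
  | nil => rfl
  | cons f M ih => rw [List.cons_append, compL, compL, ih]

/-- the maps of a product of commutators, in the order of application -/
def maps (L : List (Equiv.Perm ℂ × Equiv.Perm ℂ)) : List (Equiv.Perm ℂ) :=
  L.reverse.flatMap fun p => [p.2⁻¹, p.1⁻¹, p.2, p.1]

lemma compL_maps (L : List (Equiv.Perm ℂ × Equiv.Perm ℂ)) (z : ℂ) :
    compL (maps L) z = (L.map cmm).prod z := by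
  induction L generalizing z with
  | nil => rfl
  | cons p L ih =>
      have : maps (p :: L) = maps L ++ [p.2⁻¹, p.1⁻¹, p.2, p.1] := by
        simp [maps, List.flatMap_append]
      rw [this, compL_append, ih, List.map_cons, List.prod_cons]
      rfl

/-- a common radius for finitely many lists -/
lemma rad_list (hrad : S_rad) (R : ℝ) (LL : List (List (Equiv.Perm ℂ)))
    (h : ∀ L ∈ LL, ∀ f ∈ L, AP f) :
    ∃ ρ : ℝ, 0 < ρ ∧ ∀ L ∈ LL, ∀ z, ar z < R → Stay ρ L z := by
  suffices h' : ∃ ρ : ℝ, 0 < ρ ∧ ∀ ρ' ≥ ρ, ∀ L ∈ LL, ∀ z, ar z < R → Stay ρ' L z by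
    obtain ⟨ρ, h1, h2⟩ := h'
    exact ⟨ρ, h1, h2 ρ le_rfl⟩
  induction LL with
  | nil => exact ⟨1, one_pos, fun _ _ L hL => by simp at hL⟩
  | cons L LL ih =>
      obtain ⟨ρ1, h1, h2⟩ := ih fun L' hL' => h L' (List.mem_cons_of_mem _ hL')
      obtain ⟨ρ2, h3, h4⟩ := hrad L (h L (by simp)) R
      refine ⟨max ρ1 ρ2, lt_max_of_lt_left h1, fun ρ' hρ' L' hL' => ?_⟩
      rcases List.mem_cons.1 hL' with rfl | hL'
      · exact h4 ρ' ((le_max_right _ _).trans hρ')
      · exact h2 ρ' ((le_max_left _ _).trans hρ') L' hL'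

lemma real_list (hreal : S_real) (ρ : ℝ) (hρ : 0 < ρ) (As : List (Equiv.Perm ℂ))
    (h : ∀ a ∈ As, AP a ∧ Id0 a) :
    ∃ T0 : ℝ, ∃ e0 > 0, ∀ T ≥ T0, ∀ e, 0 < e → e ≤ e0 → ∀ a ∈ As, ∃ w : List Letter,
      w ≠ [] ∧ GoodW T e w ∧ Realises w a (Dc ρ) := by
  induction As with
  | nil => exact ⟨0, 1, one_pos, fun _ _ _ _ _ a ha => by simp at ha⟩
  | cons a As ih =>
      obtain ⟨T1, e1, he1, h1⟩ := ih fun a' ha' => h a' (List.mem_cons_of_mem _ ha')
      obtain ⟨T2, e2, he2, h2⟩ := hreal a (h a (by simp)).1 (h a (by simp)).2 ρ hρ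
      refine ⟨max T1 T2, min e1 e2, lt_min he1 he2, fun T hT e he hee a' ha' => ?_⟩
      rcases List.mem_cons.1 ha' with rfl | ha'
      · exact h2 T ((le_max_right _ _).trans hT) e he (hee.trans (min_le_right _ _))
      · exact h1 T ((le_max_left _ _).trans hT) e he (hee.trans (min_le_left _ _)) a' ha'

theorem final (hlow : S_low) (hbase : S_base) (hpush : S_push) (hsub : S_sub) (hsup : S_sup)
    (htw : S_twist) (hxf : S_xfer) (hred : S_red) (hrad : S_rad) (hreal : S_real)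
    (hcomp : S_comp) (hevid : S_evid) (hevtw : S_evtw) : ¬ HypPerfect := by
  intro H
  obtain ⟨⟨f, hf, hft⟩, _⟩ := htw
  obtain ⟨L, hL, r, hr⟩ := hred f hf (hxf H f hf)
  obtain ⟨hgAP, hgId⟩ := AP_prod hL
  set g := (L.map cmm).prod with hg
  -- outside a disc g is the twist
  set s1 : ℝ := Real.pi * (|r| + 1) ^ 2 with hs1
  have hs1p : 0 < s1 := by positivity
  have hgt : ∀ z, s1 ≤ ar z → g z = twist z := by
    intro z hz
    rw [← hft z]
    refine hr z ?_
    have h1 : (|r| + 1) ^ 2 ≤ ‖z‖ ^ 2 := by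
      unfold ar at hz
      exact le_of_mul_le_mul_left hz Real.pi_pos
    have h2 : |r| + 1 ≤ ‖z‖ :=
      (pow_le_pow_iff_left₀ (by positivity) (norm_nonneg z) two_ne_zero).1 h1
    linarith [le_abs_self r]
  obtain ⟨C, hC⟩ := hevtw g hgAP hgId s1 hs1p hgt
  -- choice of b
  set K : ℝ := |C| + 2 * (L.length : ℝ) with hK
  have hK0 : 0 ≤ K := by positivity
  set b : ℝ := K + 2 + s1 with hb
  have hb0 : 0 < b := by positivity
  -- radii
  obtain ⟨ρ, hρ, hstay⟩ := rad_list hrad (b + 1)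
    (maps L :: (L.flatMap fun p => [[p.1, p.1⁻¹], [p.2, p.2⁻¹]])) (by
      intro M hM a ha
      rcases List.mem_cons.1 hM with rfl | hM
      · simp only [maps, List.mem_flatMap, List.mem_reverse, List.mem_cons, List.not_mem_nil,
          or_false] at ha
        obtain ⟨p, hp, ha⟩ := ha
        obtain ⟨h1, _, h3, _⟩ := hL p hp
        rcases ha with rfl | rfl | rfl | rfl
        · exact AP_inv h3
        · exact AP_inv h1
        · exact h3
        · exact h1
      · simp only [List.mem_flatMap, List.mem_cons, List.not_mem_nil, or_false] at hM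
        obtain ⟨p, hp, hM⟩ := hM
        obtain ⟨h1, _, h3, _⟩ := hL p hp
        rcases hM with rfl | rfl
        · simp only [List.mem_cons, List.not_mem_nil, or_false] at ha
          rcases ha with rfl | rfl
          · exact h1
          · exact AP_inv h1
        · simp only [List.mem_cons, List.not_mem_nil, or_false] at ha
          rcases ha with rfl | rfl
          · exact h3
          · exact AP_inv h3)
  -- words
  obtain ⟨T0, e0, he0, hwords⟩ := real_list hreal ρ hρ (maps L) (by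
      intro a ha
      simp only [maps, List.mem_flatMap, List.mem_reverse, List.mem_cons, List.not_mem_nil,
          or_false] at ha
      obtain ⟨p, hp, ha⟩ := ha
      obtain ⟨h1, h2, h3, h4⟩ := hL p hp
      rcases ha with rfl | rfl | rfl | rfl
      · exact ⟨AP_inv h3, Id0_inv h4⟩
      · exact ⟨AP_inv h1, Id0_inv h2⟩
      · exact ⟨h3, h4⟩
      · exact ⟨h1, h2⟩)
  set T : ℝ := max T0 (b + 2) with hT
  set e : ℝ := min e0 (min (b / 2) 1) with he
  have hep : 0 < e := lt_min he0 (lt_min (by linarith) one_pos)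
  have heb : e < b := lt_of_le_of_lt ((min_le_right _ _).trans (min_le_left _ _)) (by linarith)
  have heT : e < T - b := by
    have h1 : e ≤ 1 := (min_le_right _ _).trans (min_le_right _ _)
    have h2 : b + 2 ≤ T := le_max_right _ _
    linarith
  have hP : Par b T e := ⟨hep, heb, heT⟩
  have hw := hwords T (le_max_left _ _) e hep (min_le_left _ _)
  choose! W hW using hw
  have mem1 : ∀ p ∈ L, p.1 ∈ maps L ∧ p.1⁻¹ ∈ maps L ∧ p.2 ∈ maps L ∧ p.2⁻¹ ∈ maps L := by
    intro p hp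
    simp only [maps, List.mem_flatMap, List.mem_reverse, List.mem_cons, List.not_mem_nil,
          or_false]
    exact ⟨⟨p, hp, by simp⟩, ⟨p, hp, by simp⟩, ⟨p, hp, by simp⟩, ⟨p, hp, by simp⟩⟩
  -- pairs
  have hpair : ∀ a : Equiv.Perm ℂ, a ∈ maps L → a⁻¹ ∈ maps L →
      (∀ z, ar z < b + 1 → Stay ρ [a, a⁻¹] z) →
      ∀ ζ, Crit b (W a ++ idL :: W a⁻¹) ζ → 0 ≤ Sw b (W a ++ idL :: W a⁻¹) ζ := by
    intro a ha ha' hst ζ hζ
    have h1 := Realises_join hcomp ρ [a, a⁻¹] W (by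
      intro a'' ha''
      simp only [List.mem_cons, List.not_mem_nil, or_false] at ha''
      rcases ha'' with rfl | rfl
      · exact (hW _ ha).2.2
      · exact (hW _ ha').2.2)
    have h2 : Realises (W a ++ idL :: W a⁻¹) (fun z => z) (Dc (b + 1)) := by
      refine Realises.mono h1 (fun z hz => hst z hz) fun z _ => ?_
      simp [compL]
    have h3 := hevid b T e (b + 1) _ hP ((hW _ ha).2.1.mid hep.le (hW _ ha').2.1)
      (by linarith) h2 ζ hζ
    exact h3.ge
  set Q := L.reverse.map (fun p : Equiv.Perm ℂ × Equiv.Perm ℂ =>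
    ((W p.1, W p.1⁻¹), (W p.2, W p.2⁻¹))) with hQdef
  have hQB : (Q.flatMap fun q => [q.2.2, q.1.2, q.2.1, q.1.1]) = (maps L).map W := by
    rw [hQdef, maps, List.flatMap_map, List.map_flatMap]
    rfl
  have hcore := core hlow hbase hpush hsub hsup hP Q (by
    intro q hq
    rw [hQdef, List.mem_map] at hq
    obtain ⟨p, hp, rfl⟩ := hq
    rw [List.mem_reverse] at hp
    obtain ⟨m1, m2, m3, m4⟩ := mem1 p hp
    refine ⟨⟨⟨(hW _ m1).2.1, (hW _ m1).1⟩, ⟨(hW _ m2).2.1, (hW _ m2).1⟩⟩,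
      ⟨⟨(hW _ m3).2.1, (hW _ m3).1⟩, ⟨(hW _ m4).2.1, (hW _ m4).1⟩⟩, ?_, ?_⟩
    · refine hpair p.1 m1 m2 (hstay _ ?_)
      refine List.mem_cons_of_mem _ ?_
      rw [List.mem_flatMap]
      exact ⟨p, hp, by simp⟩
    · refine hpair p.2 m3 m4 (hstay _ ?_)
      refine List.mem_cons_of_mem _ ?_
      rw [List.mem_flatMap]
      exact ⟨p, hp, by simp⟩) (-b ^ 2 + C * (b + 1)) (by
    rw [hQB]
    have h1 : Realises (joinW ((maps L).map W)) g (Dc (b + 1)) := by
      refine Realises.mono (Realises_join hcomp ρ (maps L) W fun a ha => (hW a ha).2.2)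
        (fun z hz => hstay _ (by simp) z hz) fun z _ => ?_
      rw [compL_maps]
    refine hC b T e (b + 1) _ hP (joinW_good hep.le _ ?_) (by linarith) (by linarith) h1
    intro w hw'
    rw [List.mem_map] at hw'
    obtain ⟨a, ha, rfl⟩ := hw'
    exact (hW a ha).2.1)
  have hlen : (Q.length : ℝ) = L.length := by rw [hQdef]; simp
  rw [hlen] at hcore
  have hCK : C ≤ |C| := le_abs_self C
  have h5 : C * (b + 1) ≤ |C| * (b + 1) := mul_le_mul_of_nonneg_right hCK (by linarith)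
  have h6 : b ^ 2 ≤ K * (b + 1) := by
    rw [hK]; linarith
  have h7 : b ^ 2 = b * (K + 2 + s1) := by rw [sq]
  nlinarith [mul_pos hb0 hs1p]

end Pool.Agent.W710.DP
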